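import Mathlib
import Pool.Agent.W37.RK.BL2
import Pool.Agent.W505.RK.LS

/-!
# Bilinear sums of Jacobi symbols over products of primes
-/

set_option autoImplicit false

namespace Pool.Agent.TH715.RS

open Finset

open Pool.Agent.W262.RK (Jr BL LS)

lemma bl : BL := W37.RK.bl_of Pool.Agent.W505.RK.ls

lemma jr_abs (a : ℤ) (n : ℕ) : |Jr a n| ≤ 1 := W37.RK.Jr_abs a n

/-- dyadic decomposition of an interval -/
lemma dyadic (Y : ℕ) (f : ℕ → ℝ) :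
    ∑ m ∈ Icc 1 Y, f m = (if 1 ≤ Y then f 1 else 0) +
      ∑ i ∈ range (Nat.log 2 Y + 1), ∑ m ∈ Ioc (2 ^ i) (2 * 2 ^ i), if m ≤ Y then f m else 0 := by
  classical
  have h1 : ∀ n : ℕ, ∑ i ∈ range n, ∑ m ∈ Ioc (2 ^ i) (2 * 2 ^ i), (if m ≤ Y then f m else 0) =
      ∑ m ∈ Ioc 1 (2 ^ n), if m ≤ Y then f m else 0 := by
    intro n
    induction n with
    | zero => simp
    | succ n ih =>
      rw [sum_range_succ, ih, ← pow_succ']
      have h2 : 1 ≤ 2 ^ n := Nat.one_le_pow _ _ (by norm_num)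
      have h3 : 2 ^ n ≤ 2 ^ (n + 1) := Nat.pow_le_pow_right (by norm_num) (Nat.le_succ n)
      rw [← Ioc_union_Ioc_eq_Ioc h2 h3, sum_union (Ioc_disjoint_Ioc_of_le le_rfl)]
  rw [h1]
  rcases Nat.eq_zero_or_pos Y with hY | hY
  · subst hY
    rw [if_neg (by norm_num), sum_eq_zero, sum_eq_zero]
    · simp
    · intro m hm
      rw [mem_Ioc] at hm
      rw [if_neg (by omega)]
    · intro m hm
      rw [mem_Icc] at hm
      omega
  · rw [if_pos (by omega), ← sum_filter]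
    have h4 : (Ioc 1 (2 ^ (Nat.log 2 Y + 1))).filter (fun m => m ≤ Y) = Ioc 1 Y := by
      ext m
      rw [mem_filter, mem_Ioc, mem_Ioc]
      have := Nat.lt_pow_succ_log_self (b := 2) (by norm_num) Y
      constructor
      · rintro ⟨⟨h1, _⟩, h3⟩
        exact ⟨h1, h3⟩
      · rintro ⟨h1, h3⟩
        exact ⟨⟨h1, (h3.trans_lt this).le⟩, h3⟩
    rw [h4, ← Finset.insert_Icc_succ_left_eq_Icc (by omega : 1 ≤ Y), sum_insert (by simp)]
    rfl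

/-- bilinear sums up to `Y` -/
lemma bil_le : ∃ (C : ℝ) (E : ℕ), 0 ≤ C ∧ ∀ Y : ℕ, 1 ≤ Y → ∀ a b : ℕ → ℝ,
    (∀ m, |a m| ≤ 1) → (∀ m, |b m| ≤ 1) → (∀ m, a m ≠ 0 → Odd m ∧ Squarefree m) →
    (∀ m, b m ≠ 0 → Odd m ∧ Squarefree m) →
    |∑ m ∈ Icc 1 Y, ∑ n ∈ Icc 1 Y, a m * b n * Jr m n| ≤
      C * (1 + Real.log (4 * Y)) ^ E * (Y : ℝ) ^ (11 / 6 : ℝ) := by
  obtain ⟨C, E, h⟩ := bl
  have hY6 : ∀ Y : ℝ, 1 ≤ Y → Y ≤ Y ^ (11 / 6 : ℝ) := fun Y hY => by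
    calc Y = Y ^ (1 : ℝ) := (Real.rpow_one Y).symm
      _ ≤ _ := Real.rpow_le_rpow_of_exponent_le hY (by norm_num)
  refine ⟨2 + 8 * |C| * 2 ^ E, E + 2, by positivity, fun Y hY a b ha hb ha' hb' => ?_⟩
  have hYr : (1 : ℝ) ≤ Y := by exact_mod_cast hY
  have hY0 : (0 : ℝ) < Y := by linarith
  set n : ℕ := Nat.log 2 Y + 1 with hn
  set Λ : ℝ := 1 + Real.log (4 * Y) with hΛ
  have hlog0 : 0 ≤ Real.log (4 * Y) := Real.log_nonneg (by linarith)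
  have hΛ1 : 1 ≤ Λ := by linarith
  have hnΛ : (n : ℝ) ≤ 2 * Λ := by
    have h1 : ((Nat.log 2 Y : ℕ) : ℝ) * Real.log 2 ≤ Real.log Y := by
      have h2 : (2 : ℝ) ^ (Nat.log 2 Y) ≤ Y := by
        exact_mod_cast Nat.pow_log_le_self 2 (by omega)
      have h3 := Real.log_le_log (by positivity) h2
      rwa [Real.log_pow] at h3
    have h4 : (0.5 : ℝ) ≤ Real.log 2 := by
      have := Real.log_two_gt_d9
      linarith
    have h5 : Real.log Y ≤ Real.log (4 * Y) := Real.log_le_log hY0 (by linarith)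
    have h6 : (0 : ℝ) ≤ ((Nat.log 2 Y : ℕ) : ℝ) := Nat.cast_nonneg _
    rw [hn]
    push_cast
    nlinarith
  -- the terms with `m = 1` or `n = 1`
  set S : (ℕ → ℝ) → (ℕ → ℝ) → ℝ := fun a b => ∑ m ∈ Icc 1 Y, ∑ n ∈ Icc 1 Y, a m * b n * Jr m n
    with hS
  have hterm : ∀ m k : ℕ, |a m * b k * Jr m k| ≤ 1 := by
    intro m k
    rw [abs_mul, abs_mul]
    calc |a m| * |b k| * |Jr m k| ≤ 1 * 1 * 1 :=
          mul_le_mul (mul_le_mul (ha m) (hb k) (abs_nonneg _) zero_le_one) (jr_abs _ _)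
            (abs_nonneg _) (by norm_num)
      _ = 1 := by norm_num
  have hdy : ∑ m ∈ Icc 1 Y, ∑ k ∈ Icc 1 Y, a m * b k * Jr m k =
      (∑ k ∈ Icc 1 Y, a 1 * b k * Jr (1 : ℕ) k) +
      ∑ i ∈ range n, ((∑ m ∈ Ioc (2 ^ i) (2 * 2 ^ i), if m ≤ Y then a m * b 1 * Jr m (1 : ℕ) else 0) +
        ∑ i' ∈ range n, ∑ m ∈ Ioc (2 ^ i) (2 * 2 ^ i), ∑ k ∈ Ioc (2 ^ i') (2 * 2 ^ i'),
          (if m ≤ Y then a m else 0) * (if k ≤ Y then b k else 0) * Jr m k) := by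
    rw [dyadic Y (fun m => ∑ k ∈ Icc 1 Y, a m * b k * Jr m k), if_pos hY]
    congr 1
    refine sum_congr rfl fun i _ => ?_
    have h1 : ∀ m ∈ Ioc (2 ^ i) (2 * 2 ^ i), (if m ≤ Y then ∑ k ∈ Icc 1 Y, a m * b k * Jr m k
        else 0) = (if m ≤ Y then a m * b 1 * Jr m (1 : ℕ) else 0) +
        ∑ i' ∈ range n, ∑ k ∈ Ioc (2 ^ i') (2 * 2 ^ i'),
          (if m ≤ Y then a m else 0) * (if k ≤ Y then b k else 0) * Jr m k := by
      intro m _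
      by_cases hm : m ≤ Y
      · simp only [if_pos hm]
        rw [dyadic Y (fun k => a m * b k * Jr m k), if_pos hY]
        congr 1
        refine sum_congr rfl fun i' _ => sum_congr rfl fun k _ => ?_
        by_cases hk : k ≤ Y
        · rw [if_pos hk, if_pos hk]
        · rw [if_neg hk, if_neg hk, mul_zero, zero_mul]
      · simp only [if_neg hm]
        simp
    rw [sum_congr rfl h1, sum_add_distrib, sum_comm]
  rw [hdy]
  have hcardI : ((Icc 1 Y).card : ℝ) = Y := by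
    rw [Nat.card_Icc]
    simp
  have hA : |∑ k ∈ Icc 1 Y, a 1 * b k * Jr (1 : ℕ) k| ≤ Y := by
    refine (abs_sum_le_sum_abs _ _).trans ?_
    calc ∑ k ∈ Icc 1 Y, |a 1 * b k * Jr (1 : ℕ) k| ≤ ∑ k ∈ Icc 1 Y, (1 : ℝ) :=
          sum_le_sum fun k _ => hterm 1 k
      _ = Y := by rw [sum_const, nsmul_eq_mul, mul_one, hcardI]
  have hB : |∑ i ∈ range n, ∑ m ∈ Ioc (2 ^ i) (2 * 2 ^ i),
      if m ≤ Y then a m * b 1 * Jr m (1 : ℕ) else 0| ≤ Y := by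
    have h1 := dyadic Y (fun m => a m * b 1 * Jr m (1 : ℕ))
    rw [if_pos hY] at h1
    have h2 : ∑ i ∈ range n, ∑ m ∈ Ioc (2 ^ i) (2 * 2 ^ i),
        (if m ≤ Y then a m * b 1 * Jr m (1 : ℕ) else 0) =
        ∑ m ∈ Ioc 1 Y, a m * b 1 * Jr m (1 : ℕ) := by
      have h3 : ∑ m ∈ Icc 1 Y, a m * b 1 * Jr m (1 : ℕ) = a (1 : ℕ) * b 1 * Jr (1 : ℕ) (1 : ℕ) +
          ∑ m ∈ Ioc 1 Y, a m * b 1 * Jr m (1 : ℕ) := by
        rw [← Finset.insert_Icc_succ_left_eq_Icc hY, sum_insert (by simp)]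
        rfl
      rw [hn]
      linarith
    rw [h2]
    refine (abs_sum_le_sum_abs _ _).trans ?_
    calc ∑ m ∈ Ioc 1 Y, |a m * b 1 * Jr m (1 : ℕ)| ≤ ∑ m ∈ Ioc 1 Y, (1 : ℝ) :=
          sum_le_sum fun m _ => hterm m 1
      _ ≤ Y := by
        rw [sum_const, nsmul_eq_mul, mul_one, Nat.card_Ioc]
        exact_mod_cast Nat.sub_le Y 1
  have hC : ∀ i ∈ range n, ∀ i' ∈ range n, |∑ m ∈ Ioc (2 ^ i) (2 * 2 ^ i),
      ∑ k ∈ Ioc (2 ^ i') (2 * 2 ^ i'),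
        (if m ≤ Y then a m else 0) * (if k ≤ Y then b k else 0) * Jr m k| ≤
      |C| * (2 * Λ) ^ E * (2 * (Y : ℝ) ^ (11 / 6 : ℝ)) := by
    intro i hi i' hi'
    have hpow : ∀ i ∈ range n, (2 : ℕ) ^ i ≤ Y := by
      intro i hi
      rw [mem_range, hn] at hi
      exact (Nat.pow_le_pow_right (by norm_num) (by omega)).trans (Nat.pow_log_le_self 2 (by omega))
    have h1 := h (2 ^ i) (2 ^ i') (Nat.one_le_pow _ _ (by norm_num))
      (Nat.one_le_pow _ _ (by norm_num)) (fun m => if m ≤ Y then a m else 0)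
      (fun k => if k ≤ Y then b k else 0)
      (fun m => by
        by_cases hm : m ≤ Y
        · simp only [if_pos hm]; exact ha m
        · simp only [if_neg hm]; simp)
      (fun m => by
        by_cases hm : m ≤ Y
        · simp only [if_pos hm]; exact hb m
        · simp only [if_neg hm]; simp)
      (fun m hm => by
        by_cases hmY : m ≤ Y
        · rw [if_pos hmY] at hm; exact ha' m hm
        · rw [if_neg hmY] at hm; exact absurd rfl hm)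
      (fun m hm => by
        by_cases hmY : m ≤ Y
        · rw [if_pos hmY] at hm; exact hb' m hm
        · rw [if_neg hmY] at hm; exact absurd rfl hm)
    refine h1.trans ?_
    have hp1 : ((2 ^ i : ℕ) : ℝ) ≤ Y := by exact_mod_cast hpow i hi
    have hp2 : ((2 ^ i' : ℕ) : ℝ) ≤ Y := by exact_mod_cast hpow i' hi'
    have hq1 : (1 : ℝ) ≤ ((2 ^ i : ℕ) : ℝ) := by
      exact_mod_cast Nat.one_le_pow i 2 (by norm_num)
    have hq2 : (1 : ℝ) ≤ ((2 ^ i' : ℕ) : ℝ) := by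
      exact_mod_cast Nat.one_le_pow i' 2 (by norm_num)
    set M : ℝ := ((2 ^ i : ℕ) : ℝ) with hM
    set N : ℝ := ((2 ^ i' : ℕ) : ℝ) with hN
    have hM0 : 0 < M := by linarith
    have hN0 : 0 < N := by linarith
    have hl : Real.log (4 * M * N) ≤ 2 * Λ := by
      have h2 : 4 * M * N ≤ (4 * Y) * (4 * Y) := by nlinarith
      have h3 : Real.log (4 * M * N) ≤ Real.log (4 * Y * (4 * Y)) :=
        Real.log_le_log (by positivity) h2
      have h4 : Real.log (4 * Y * (4 * Y)) = Real.log (4 * Y) + Real.log (4 * Y) :=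
        Real.log_mul (by positivity) (by positivity)
      linarith
    have hl0 : 0 ≤ Real.log (4 * M * N) := Real.log_nonneg (by nlinarith)
    have h5 : M * N * (M ^ (-(1 / 6 : ℝ)) + N ^ (-(1 / 6 : ℝ))) ≤ 2 * (Y : ℝ) ^ (11 / 6 : ℝ) := by
      have h6 : M * M ^ (-(1 / 6 : ℝ)) = M ^ (5 / 6 : ℝ) := by
        rw [← Real.rpow_one_add' hM0.le (by norm_num)]
        norm_num
      have h7 : N * N ^ (-(1 / 6 : ℝ)) = N ^ (5 / 6 : ℝ) := by
        rw [← Real.rpow_one_add' hN0.le (by norm_num)]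
        norm_num
      have h8 : M * N * (M ^ (-(1 / 6 : ℝ)) + N ^ (-(1 / 6 : ℝ))) =
          N * (M * M ^ (-(1 / 6 : ℝ))) + M * (N * N ^ (-(1 / 6 : ℝ))) := by ring
      have h9 : (Y : ℝ) ^ (11 / 6 : ℝ) = Y * (Y : ℝ) ^ (5 / 6 : ℝ) := by
        rw [← Real.rpow_one_add' hY0.le (by norm_num)]
        norm_num
      rw [h8, h6, h7, h9]
      have h10 := Real.rpow_le_rpow hM0.le hp1 (by norm_num : (0 : ℝ) ≤ 5 / 6)
      have h11 := Real.rpow_le_rpow hN0.le hp2 (by norm_num : (0 : ℝ) ≤ 5 / 6)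
      have h12 : 0 ≤ M ^ (5 / 6 : ℝ) := Real.rpow_nonneg hM0.le _
      have h13 : 0 ≤ N ^ (5 / 6 : ℝ) := Real.rpow_nonneg hN0.le _
      have h14 := mul_le_mul hp2 h10 h12 hY0.le
      have h15 := mul_le_mul hp1 h11 h13 hY0.le
      linarith
    have h16 : 0 ≤ M * N * (M ^ (-(1 / 6 : ℝ)) + N ^ (-(1 / 6 : ℝ))) := by positivity
    calc C * Real.log (4 * M * N) ^ E * (M * N) * (M ^ (-(1 / 6 : ℝ)) + N ^ (-(1 / 6 : ℝ)))
        = C * (Real.log (4 * M * N) ^ E * (M * N * (M ^ (-(1 / 6 : ℝ)) + N ^ (-(1 / 6 : ℝ))))) := by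
          ring
      _ ≤ |C| * (Real.log (4 * M * N) ^ E *
          (M * N * (M ^ (-(1 / 6 : ℝ)) + N ^ (-(1 / 6 : ℝ))))) :=
          mul_le_mul_of_nonneg_right (le_abs_self C) (by positivity)
      _ ≤ |C| * ((2 * Λ) ^ E * (2 * (Y : ℝ) ^ (11 / 6 : ℝ))) := by
          refine mul_le_mul_of_nonneg_left ?_ (abs_nonneg C)
          exact mul_le_mul (pow_le_pow_left₀ hl0 hl E) h5 h16 (by positivity)
      _ = _ := by ring
  have hYY := hY6 Y hYr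
  have hY60 : 0 ≤ (Y : ℝ) ^ (11 / 6 : ℝ) := by positivity
  rw [sum_add_distrib]
  have hD : |∑ i ∈ range n, ∑ i' ∈ range n, ∑ m ∈ Ioc (2 ^ i) (2 * 2 ^ i),
      ∑ k ∈ Ioc (2 ^ i') (2 * 2 ^ i'),
        (if m ≤ Y then a m else 0) * (if k ≤ Y then b k else 0) * Jr m k| ≤
      (2 * Λ) ^ 2 * (|C| * (2 * Λ) ^ E * (2 * (Y : ℝ) ^ (11 / 6 : ℝ))) := by
    set B := |C| * (2 * Λ) ^ E * (2 * (Y : ℝ) ^ (11 / 6 : ℝ)) with hBdef
    have hB0 : 0 ≤ B := by positivity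
    calc |∑ i ∈ range n, ∑ i' ∈ range n, ∑ m ∈ Ioc (2 ^ i) (2 * 2 ^ i),
        ∑ k ∈ Ioc (2 ^ i') (2 * 2 ^ i'),
          (if m ≤ Y then a m else 0) * (if k ≤ Y then b k else 0) * Jr m k|
        ≤ ∑ i ∈ range n, ∑ i' ∈ range n, B := by
          refine (abs_sum_le_sum_abs _ _).trans (sum_le_sum fun i hi => ?_)
          exact (abs_sum_le_sum_abs _ _).trans (sum_le_sum fun i' hi' => hC i hi i' hi')
      _ = (n : ℝ) ^ 2 * B := by
          rw [sum_const, sum_const, card_range, nsmul_eq_mul, nsmul_eq_mul]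
          ring
      _ ≤ _ := mul_le_mul_of_nonneg_right (pow_le_pow_left₀ (Nat.cast_nonneg n) hnΛ 2) hB0
  have hfin : (2 * Λ) ^ 2 * (|C| * (2 * Λ) ^ E * (2 * (Y : ℝ) ^ (11 / 6 : ℝ))) =
      8 * |C| * 2 ^ E * Λ ^ (E + 2) * (Y : ℝ) ^ (11 / 6 : ℝ) := by
    rw [mul_pow, mul_pow, pow_add]
    ring
  rw [hfin] at hD
  have hΛE : 1 ≤ Λ ^ (E + 2) := one_le_pow₀ hΛ1
  calc |(∑ k ∈ Icc 1 Y, a 1 * b k * Jr (1 : ℕ) k) +
      ((∑ i ∈ range n, ∑ m ∈ Ioc (2 ^ i) (2 * 2 ^ i),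
        if m ≤ Y then a m * b 1 * Jr m (1 : ℕ) else 0) +
      ∑ i ∈ range n, ∑ i' ∈ range n, ∑ m ∈ Ioc (2 ^ i) (2 * 2 ^ i),
        ∑ k ∈ Ioc (2 ^ i') (2 * 2 ^ i'),
          (if m ≤ Y then a m else 0) * (if k ≤ Y then b k else 0) * Jr m k)|
      ≤ Y + (Y + 8 * |C| * 2 ^ E * Λ ^ (E + 2) * (Y : ℝ) ^ (11 / 6 : ℝ)) :=
        (abs_add_le _ _).trans (add_le_add hA ((abs_add_le _ _).trans (add_le_add hB hD)))
    _ ≤ 2 * (Λ ^ (E + 2) * (Y : ℝ) ^ (11 / 6 : ℝ)) +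
        8 * |C| * 2 ^ E * Λ ^ (E + 2) * (Y : ℝ) ^ (11 / 6 : ℝ) := by
        have : (Y : ℝ) ^ (11 / 6 : ℝ) ≤ Λ ^ (E + 2) * (Y : ℝ) ^ (11 / 6 : ℝ) :=
          le_mul_of_one_le_left hY60 hΛE
        linarith
    _ = _ := by ring

end Pool.Agent.TH715.RS
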