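import Mathlib

/-!
# Unlinked sets of colours

Colours are functions `R → Bool × Bool`. The symbol `(x / x')` of a prime `x` of colour `a` and a
prime `x'` of colour `b` occurs with the exponent `nn a b`. An unlinked set of colours has at most
`2 ^ |R|` elements.
-/

set_option autoImplicit false

namespace Pool.Agent.TH715.RS

open Finset

/-- does the symbol `(x / x')` occur, for `x` of colour `a` and `x'` of colour `b`? -/
def e0 (a b : Bool × Bool) : Bool := b.2 && xor a.1 b.1

/-- the linking sign -/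
def l0 (a b : Bool × Bool) : ℤ := if xor (e0 a b) (e0 b a) then -1 else 1

/-- the bilinear sign -/
def b0 (a b : Bool × Bool) : ℤ := if xor (a.1 && b.2) (a.2 && b.1) then -1 else 1

/-- addition -/
def ad (a b : Bool × Bool) : Bool × Bool := (xor a.1 b.1, xor a.2 b.2)

lemma b0_ad (a b c : Bool × Bool) : b0 (ad a c) (ad b c) = l0 a c * l0 b c * l0 a b := by
  revert a b c
  decide

lemma b0_sum (a b : Bool × Bool) : ∑ x : Bool × Bool, b0 x a * b0 x b =
    if a = b then 4 else 0 := by
  revert a b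
  decide

lemma ad_ad (a c : Bool × Bool) : ad (ad a c) c = a := by
  revert a c
  decide

lemma e0_self (a : Bool × Bool) : e0 a a = false := by
  revert a
  decide

variable {R : Type} [Fintype R] [DecidableEq R]

/-- the exponent of the symbol `(x / x')`, for `x` of colour `a` and `x'` of colour `b` -/
def nn (a b : R → Bool × Bool) : ℕ := (univ.filter (fun r => e0 (a r) (b r) = true)).card

lemma nn_self (a : R → Bool × Bool) : nn a a = 0 := by
  unfold nn
  rw [card_eq_zero, filter_eq_empty_iff]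
  intro r _
  rw [e0_self]
  decide

lemma prod_l0 (a b : R → Bool × Bool) : ∏ r, l0 (a r) (b r) = (-1 : ℤ) ^ (nn a b + nn b a) := by
  have h1 : ∀ r, l0 (a r) (b r) = (if e0 (a r) (b r) = true then (-1 : ℤ) else 1) *
      (if e0 (b r) (a r) = true then (-1 : ℤ) else 1) := by
    intro r
    unfold l0
    cases e0 (a r) (b r) <;> cases e0 (b r) (a r) <;> decide
  rw [prod_congr rfl fun r _ => h1 r, prod_mul_distrib, ← prod_filter, ← prod_filter, prod_const,
    prod_const, ← pow_add]
  rfl

/-- addition of colours -/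
def adR (a b : R → Bool × Bool) : R → Bool × Bool := fun r => ad (a r) (b r)

lemma adR_adR (a c : R → Bool × Bool) : adR (adR a c) c = a := by
  funext r
  exact ad_ad _ _

/-- **an unlinked set of colours is small** -/
theorem card_unlinked (U : Finset (R → Bool × Bool))
    (hU : ∀ a ∈ U, ∀ b ∈ U, Even (nn a b + nn b a)) : U.card ≤ 2 ^ Fintype.card R := by
  classical
  rcases U.eq_empty_or_nonempty with h0 | ⟨c, hc⟩
  · rw [h0]
    simp
  set β : (R → Bool × Bool) → (R → Bool × Bool) → ℤ := fun a b => ∏ r, b0 (a r) (b r) with hβ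
  have h1 : ∀ a ∈ U, ∀ b ∈ U, β (adR a c) (adR b c) = 1 := by
    intro a ha b hb
    rw [hβ]
    change ∏ r, b0 (ad (a r) (c r)) (ad (b r) (c r)) = 1
    rw [prod_congr rfl fun r _ => b0_ad (a r) (b r) (c r), prod_mul_distrib, prod_mul_distrib,
      prod_l0, prod_l0, prod_l0, (hU a ha c hc).neg_one_pow, (hU b hb c hc).neg_one_pow,
      (hU a ha b hb).neg_one_pow]
    norm_num
  have h2 : ∀ w w' : R → Bool × Bool, ∑ v : R → Bool × Bool, β v (adR w c) * β v (adR w' c) =
      if w = w' then (4 : ℤ) ^ Fintype.card R else 0 := by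
    intro w w'
    have h3 : ∀ v : R → Bool × Bool, β v (adR w c) * β v (adR w' c) =
        ∏ r, (b0 (v r) (ad (w r) (c r)) * b0 (v r) (ad (w' r) (c r))) := by
      intro v
      rw [hβ, prod_mul_distrib]
      rfl
    rw [sum_congr rfl fun v _ => h3 v]
    have h4 := Finset.prod_univ_sum (fun _ : R => (univ : Finset (Bool × Bool)))
      (fun r x => b0 x (ad (w r) (c r)) * b0 x (ad (w' r) (c r)))
    rw [Fintype.piFinset_univ] at h4
    rw [← h4, prod_congr rfl fun r _ => b0_sum _ _]
    by_cases hw : w = w'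
    · subst hw
      rw [if_pos rfl, prod_congr rfl fun r _ => if_pos rfl, prod_const, card_univ]
    · rw [if_neg hw]
      obtain ⟨r, hr⟩ := Function.ne_iff.1 hw
      refine prod_eq_zero (mem_univ r) ?_
      rw [if_neg]
      intro h5
      apply hr
      rw [← ad_ad (w r) (c r), h5, ad_ad]
  have h3 : ∑ v : R → Bool × Bool, (∑ w ∈ U, β v (adR w c)) ^ 2 =
      (U.card : ℤ) * 4 ^ Fintype.card R := by
    have h4 : ∀ v : R → Bool × Bool, (∑ w ∈ U, β v (adR w c)) ^ 2 =
        ∑ w ∈ U, ∑ w' ∈ U, β v (adR w c) * β v (adR w' c) := by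
      intro v
      rw [sq, sum_mul_sum]
    rw [sum_congr rfl fun v _ => h4 v, sum_comm]
    have h5 : ∀ w ∈ U, ∑ v : R → Bool × Bool, ∑ w' ∈ U, β v (adR w c) * β v (adR w' c) =
        (4 : ℤ) ^ Fintype.card R := by
      intro w hw
      rw [sum_comm, sum_congr rfl fun w' _ => h2 w w', sum_ite_eq, if_pos hw]
    rw [sum_congr rfl h5, sum_const, nsmul_eq_mul]
  have h4 : (U.card : ℤ) * (U.card : ℤ) ^ 2 ≤ ∑ v : R → Bool × Bool,
      (∑ w ∈ U, β v (adR w c)) ^ 2 := by
    have h5 : ∑ v ∈ U.image (fun a => adR a c), (∑ w ∈ U, β v (adR w c)) ^ 2 =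
        (U.card : ℤ) * (U.card : ℤ) ^ 2 := by
      rw [sum_image]
      · have h6 : ∀ v ∈ U, (∑ w ∈ U, β (adR v c) (adR w c)) ^ 2 = (U.card : ℤ) ^ 2 := by
          intro v hv
          rw [sum_congr rfl fun w hw => h1 v hv w hw, sum_const, nsmul_eq_mul, mul_one]
        rw [sum_congr rfl h6, sum_const, nsmul_eq_mul]
      · intro a _ b _ hab
        have hab' : adR a c = adR b c := hab
        rw [← adR_adR a c, hab', adR_adR]
    rw [← h5]
    exact sum_le_sum_of_subset_of_nonneg (subset_univ _) fun _ _ _ => sq_nonneg _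
  rw [h3] at h4
  have h5 : (0 : ℤ) < U.card := by
    have := card_pos.2 ⟨c, hc⟩
    exact_mod_cast this
  have h6 : (U.card : ℤ) ^ 2 ≤ 4 ^ Fintype.card R := le_of_mul_le_mul_left h4 h5
  have h7 : (U.card : ℤ) ^ 2 ≤ ((2 : ℤ) ^ Fintype.card R) ^ 2 := by
    calc (U.card : ℤ) ^ 2 ≤ 4 ^ Fintype.card R := h6
      _ = ((2 : ℤ) ^ Fintype.card R) ^ 2 := by
          rw [← pow_mul, mul_comm, pow_mul]
          norm_num
  have h8 : (U.card : ℤ) ≤ 2 ^ Fintype.card R :=
    (pow_le_pow_iff_left₀ h5.le (by positivity) two_ne_zero).1 h7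
  exact_mod_cast h8

/-- a sum over all colourings -/
lemma sum_colour {V : Type} [Fintype V] {ι : Type} [Fintype ι] [DecidableEq ι] (f : V → ℝ) :
    ∑ u : ι → V, ∏ i, f (u i) = (∑ v, f v) ^ Fintype.card ι := by
  classical
  have h4 := Finset.prod_univ_sum (fun _ : ι => (univ : Finset V)) (fun _ x => f x)
  rw [Fintype.piFinset_univ] at h4
  rw [← h4, prod_const, card_univ]

end Pool.Agent.TH715.RS
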