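import Mathlib
import Pool.Agent.TH715.RS.Bil
import Pool.Agent.TH715.RS.Comb

/-!
# Sums over tuples of primes
-/

set_option autoImplicit false

namespace Pool.Agent.TH715.RS

open Finset

open Pool.Agent.W262.RK (Jr)

section resample

variable {ι : Type} [Fintype ι] [DecidableEq ι]

/-- the tuples with entries in `Q` -/
abbrev PQ (ι : Type) [Fintype ι] [DecidableEq ι] (Q : Finset ℕ) : Finset (ι → ℕ) :=
  Fintype.piFinset (fun _ : ι => Q)

lemma pw_mem {Q : Finset ℕ} {A : Finset ι} {a x : ι → ℕ} (ha : a ∈ PQ ι Q) (hx : x ∈ PQ ι Q) :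
    A.piecewise a x ∈ PQ ι Q := by
  rw [Fintype.mem_piFinset] at *
  intro i
  by_cases hi : i ∈ A
  · rw [piecewise_eq_of_mem _ _ _ hi]
    exact ha i
  · rw [piecewise_eq_of_notMem _ _ _ hi]
    exact hx i

lemma pw_pw (A : Finset ι) (a x : ι → ℕ) :
    A.piecewise (A.piecewise a x) (A.piecewise x a) = a := by
  funext i
  by_cases hi : i ∈ A
  · rw [piecewise_eq_of_mem _ _ _ hi, piecewise_eq_of_mem _ _ _ hi]
  · rw [piecewise_eq_of_notMem _ _ _ hi, piecewise_eq_of_notMem _ _ _ hi]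

lemma card_PQ (Q : Finset ℕ) : ((PQ ι Q).card : ℝ) = (Q.card : ℝ) ^ Fintype.card ι := by
  unfold PQ
  rw [Fintype.card_piFinset, prod_const, card_univ]
  push_cast
  rfl

/-- resampling the coordinates in `A` -/
lemma resample (Q : Finset ℕ) (A : Finset ι) (h : (ι → ℕ) → ℝ) :
    ∑ a ∈ PQ ι Q, ∑ x ∈ PQ ι Q, h (A.piecewise a x) =
      (Q.card : ℝ) ^ Fintype.card ι * ∑ z ∈ PQ ι Q, h z := by
  rw [← sum_product']
  have h1 : ∑ p ∈ PQ ι Q ×ˢ PQ ι Q, h (A.piecewise p.1 p.2) =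
      ∑ p ∈ PQ ι Q ×ˢ PQ ι Q, h p.1 := by
    refine sum_nbij' (fun p => (A.piecewise p.1 p.2, A.piecewise p.2 p.1))
      (fun p => (A.piecewise p.1 p.2, A.piecewise p.2 p.1)) ?_ ?_ ?_ ?_ ?_
    · intro p hp
      obtain ⟨h1, h2⟩ := mem_product.1 hp
      exact mem_product.2 ⟨pw_mem h1 h2, pw_mem h2 h1⟩
    · intro p hp
      obtain ⟨h1, h2⟩ := mem_product.1 hp
      exact mem_product.2 ⟨pw_mem h1 h2, pw_mem h2 h1⟩
    · intro p _
      exact Prod.ext (pw_pw A p.1 p.2) (pw_pw A p.2 p.1)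
    · intro p _
      exact Prod.ext (pw_pw A p.1 p.2) (pw_pw A p.2 p.1)
    · intro p _
      rfl
  rw [h1, sum_product]
  have h2 : ∀ z ∈ PQ ι Q, ∑ _x ∈ PQ ι Q, h z = (Q.card : ℝ) ^ Fintype.card ι * h z := by
    intro z _
    rw [sum_const, nsmul_eq_mul, card_PQ]
  rw [sum_congr rfl h2, mul_sum]

/-- resampling the coordinates in two sets -/
lemma resample2 (Q : Finset ℕ) (A B : Finset ι) (h : (ι → ℕ) → ℝ) :
    ∑ x ∈ PQ ι Q, ∑ a ∈ PQ ι Q, ∑ b ∈ PQ ι Q, h (A.piecewise a (B.piecewise b x)) =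
      (Q.card : ℝ) ^ Fintype.card ι * ((Q.card : ℝ) ^ Fintype.card ι * ∑ z ∈ PQ ι Q, h z) := by
  have h1 : ∑ x ∈ PQ ι Q, ∑ a ∈ PQ ι Q, ∑ b ∈ PQ ι Q, h (A.piecewise a (B.piecewise b x)) =
      ∑ b ∈ PQ ι Q, ∑ x ∈ PQ ι Q, (fun z => ∑ a ∈ PQ ι Q, h (A.piecewise a z))
        (B.piecewise b x) := by
    calc ∑ x ∈ PQ ι Q, ∑ a ∈ PQ ι Q, ∑ b ∈ PQ ι Q, h (A.piecewise a (B.piecewise b x))
        = ∑ x ∈ PQ ι Q, ∑ b ∈ PQ ι Q, ∑ a ∈ PQ ι Q, h (A.piecewise a (B.piecewise b x)) :=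
          sum_congr rfl fun x _ => sum_comm
      _ = _ := sum_comm
  rw [h1, resample Q B (fun z => ∑ a ∈ PQ ι Q, h (A.piecewise a z))]
  congr 1
  rw [sum_comm, resample Q A h]

end resample

lemma sqf_prod (S : Finset ℕ) (hS : ∀ p ∈ S, p.Prime) : Squarefree (∏ p ∈ S, p) := by
  classical
  induction S using Finset.induction_on with
  | empty => simp
  | insert p S hp ih =>
    rw [prod_insert hp]
    have h1 : Nat.Coprime p (∏ q ∈ S, q) := by
      refine Nat.Coprime.prod_right fun q hq => ?_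
      exact (Nat.coprime_primes (hS p (mem_insert_self _ _)) (hS q (mem_insert_of_mem hq))).2
        (fun h => hp (h ▸ hq))
    rw [Nat.squarefree_mul h1]
    exact ⟨(hS p (mem_insert_self _ _)).prime.squarefree, ih fun q hq => hS q (mem_insert_of_mem hq)⟩

section bil

variable {ι : Type} [Fintype ι] [DecidableEq ι]

/-- the number of the tuples with a given product over `A` -/
lemma card_fibre {Q : Finset ℕ} (hQ : ∀ q ∈ Q, q.Prime) (A : Finset ι) (m : ℕ) :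
    ((PQ ι Q).filter (fun a => ∏ i ∈ A, a i = m)).card ≤
      A.card ^ A.card * Q.card ^ (Fintype.card ι - A.card) := by
  classical
  rcases ((PQ ι Q).filter (fun a => ∏ i ∈ A, a i = m)).eq_empty_or_nonempty with h0 | ⟨a₀, ha₀⟩
  · rw [h0]
    exact Nat.zero_le _
  obtain ⟨ha1, ha2⟩ := mem_filter.1 ha₀
  have ha3 : ∀ i, a₀ i ∈ Q := fun i => Fintype.mem_piFinset.1 ha1 i
  have hm0 : m ≠ 0 := by
    rw [← ha2]
    exact prod_ne_zero_iff.2 fun i _ => (hQ _ (ha3 i)).ne_zero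
  have hpf : m.primeFactors.card ≤ A.card := by
    have h1 : m.primeFactors ⊆ A.image a₀ := by
      intro p hp
      have hpp := Nat.prime_of_mem_primeFactors hp
      have hpd := Nat.dvd_of_mem_primeFactors hp
      rw [← ha2] at hpd
      obtain ⟨i, hi, h2⟩ := (hpp.prime.dvd_finsetProd_iff _).1 hpd
      rw [mem_image]
      exact ⟨i, hi, ((Nat.prime_dvd_prime_iff_eq hpp (hQ _ (ha3 i))).1 h2).symm⟩
    exact (card_le_card h1).trans card_image_le
  have hsub : (PQ ι Q).filter (fun a => ∏ i ∈ A, a i = m) ⊆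
      Fintype.piFinset (fun i => if i ∈ A then m.primeFactors else Q) := by
    intro a ha
    obtain ⟨h1, h2⟩ := mem_filter.1 ha
    rw [Fintype.mem_piFinset] at h1 ⊢
    intro i
    by_cases hi : i ∈ A
    · rw [if_pos hi, Nat.mem_primeFactors]
      refine ⟨hQ _ (h1 i), ?_, hm0⟩
      rw [← h2]
      exact dvd_prod_of_mem _ hi
    · rw [if_neg hi]
      exact h1 i
  refine (card_le_card hsub).trans ?_
  rw [Fintype.card_piFinset]
  have h3 : ∀ i : ι, (if i ∈ A then m.primeFactors else Q).card ≤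
      if i ∈ A then A.card else Q.card := by
    intro i
    by_cases hi : i ∈ A
    · rw [if_pos hi, if_pos hi]
      exact hpf
    · rw [if_neg hi, if_neg hi]
  refine (prod_le_prod' fun i _ => h3 i).trans ?_
  rw [prod_ite, prod_const, prod_const]
  have h4 : (univ.filter (fun i => i ∈ A)).card = A.card := by
    congr 1
    ext i
    simp
  have h5 : (univ.filter (fun i => i ∉ A)).card = Fintype.card ι - A.card := by
    rw [← card_univ, ← card_sdiff_of_subset (subset_univ A)]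
    congr 1
    ext i
    simp
  rw [h4, h5]

lemma odd_sqf {Q : Finset ℕ} (hQ : ∀ q ∈ Q, q.Prime ∧ q ≠ 2) {A : Finset ι} {a : ι → ℕ}
    (ha : a ∈ PQ ι Q) (hinj : Set.InjOn a A) :
    Odd (∏ i ∈ A, a i) ∧ Squarefree (∏ i ∈ A, a i) := by
  classical
  have ha3 : ∀ i, a i ∈ Q := fun i => Fintype.mem_piFinset.1 ha i
  constructor
  · refine prod_induction _ Odd (fun _ _ h1 h2 => h1.mul h2) odd_one fun i _ => ?_
    exact (hQ _ (ha3 i)).1.odd_of_ne_two (hQ _ (ha3 i)).2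
  · have h1 : ∏ i ∈ A, a i = ∏ p ∈ A.image a, p := (prod_image (f := fun p : ℕ => p) hinj).symm
    rw [h1]
    refine sqf_prod _ fun p hp => ?_
    obtain ⟨i, _, rfl⟩ := mem_image.1 hp
    exact (hQ _ (ha3 i)).1

end bil

/-- **bilinear sums over tuples of primes** -/
theorem tuple_bil : ∃ (C : ℝ) (E : ℕ), 0 ≤ C ∧
    ∀ (ι : Type) [Fintype ι] [DecidableEq ι] (Q : Finset ℕ) (y : ℕ) (A B : Finset ι) (s : ℕ),
      (∀ q ∈ Q, q.Prime ∧ q ≠ 2 ∧ q ≤ y) → 1 ≤ y → 1 ≤ s → A.card = s → B.card = s →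
      ∀ α β : (ι → ℕ) → ℝ, (∀ a, |α a| ≤ 1) → (∀ b, |β b| ≤ 1) →
      (∀ a, α a ≠ 0 → Set.InjOn a A) → (∀ b, β b ≠ 0 → Set.InjOn b B) →
      |∑ a ∈ PQ ι Q, ∑ b ∈ PQ ι Q, α a * β b * Jr ((∏ i ∈ A, a i : ℕ) : ℤ) (∏ i ∈ B, b i)| ≤
        ((s : ℝ) ^ s * (Q.card : ℝ) ^ (Fintype.card ι - s)) ^ 2 *
          (C * (1 + Real.log (4 * ((y ^ s : ℕ) : ℝ))) ^ E * ((y ^ s : ℕ) : ℝ) ^ (11 / 6 : ℝ)) := by
  classical
  obtain ⟨C, E, hC, hbil⟩ := bil_le
  refine ⟨C, E, hC, ?_⟩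
  intro ι _ _ Q y A B s hQ hy hs hA hB α β hα hβ hα' hβ'
  have hQp : ∀ q ∈ Q, q.Prime := fun q hq => (hQ q hq).1
  have hQ2 : ∀ q ∈ Q, q.Prime ∧ q ≠ 2 := fun q hq => ⟨(hQ q hq).1, (hQ q hq).2.1⟩
  set Y : ℕ := y ^ s with hY
  have hY1 : 1 ≤ Y := Nat.one_le_pow _ _ hy
  have hlog0 : 0 ≤ 1 + Real.log (4 * (Y : ℝ)) := by
    have : (1 : ℝ) ≤ Y := by exact_mod_cast hY1
    have := Real.log_nonneg (by linarith : (1 : ℝ) ≤ 4 * (Y : ℝ))
    linarith
  rcases Q.eq_empty_or_nonempty with h0 | hne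
  · subst h0
    have hne : A.Nonempty := card_pos.1 (by omega)
    obtain ⟨i₀, _⟩ := hne
    have h1 : PQ ι (∅ : Finset ℕ) = ∅ := by
      rw [eq_empty_iff_forall_notMem]
      intro a ha
      have := Fintype.mem_piFinset.1 ha i₀
      simp at this
    rw [h1, sum_empty, abs_zero]
    positivity
  set K : ℝ := (s : ℝ) ^ s * (Q.card : ℝ) ^ (Fintype.card ι - s) with hK
  have hQc : (0 : ℝ) < Q.card := by exact_mod_cast hne.card_pos
  have hs0 : (0 : ℝ) < s := by exact_mod_cast hs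
  have hK0 : 0 < K := by positivity
  set c : ℕ → ℝ := fun m => ∑ a ∈ (PQ ι Q).filter (fun a => ∏ i ∈ A, a i = m), α a with hc
  set d : ℕ → ℝ := fun m => ∑ b ∈ (PQ ι Q).filter (fun b => ∏ i ∈ B, b i = m), β b with hd
  have hbd : ∀ (S : Finset ι) (γ : (ι → ℕ) → ℝ), S.card = s → (∀ a, |γ a| ≤ 1) → ∀ m : ℕ,
      |∑ a ∈ (PQ ι Q).filter (fun a => ∏ i ∈ S, a i = m), γ a| ≤ K := by
    intro S γ hS hγ m
    refine (abs_sum_le_sum_abs _ _).trans ?_
    calc ∑ a ∈ (PQ ι Q).filter (fun a => ∏ i ∈ S, a i = m), |γ a|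
        ≤ ∑ a ∈ (PQ ι Q).filter (fun a => ∏ i ∈ S, a i = m), (1 : ℝ) :=
          sum_le_sum fun a _ => hγ a
      _ = (((PQ ι Q).filter (fun a => ∏ i ∈ S, a i = m)).card : ℝ) := by
          rw [sum_const, nsmul_eq_mul, mul_one]
      _ ≤ ((S.card ^ S.card * Q.card ^ (Fintype.card ι - S.card) : ℕ) : ℝ) := by
          exact_mod_cast card_fibre hQp S m
      _ = K := by
          rw [hS, hK]
          push_cast
          ring
  have hsup : ∀ (S : Finset ι) (γ : (ι → ℕ) → ℝ), (∀ a, γ a ≠ 0 → Set.InjOn a S) → ∀ m : ℕ,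
      ∑ a ∈ (PQ ι Q).filter (fun a => ∏ i ∈ S, a i = m), γ a ≠ 0 → Odd m ∧ Squarefree m := by
    intro S γ hγ m hm
    obtain ⟨a, ha, hane⟩ := exists_ne_zero_of_sum_ne_zero hm
    obtain ⟨h1, h2⟩ := mem_filter.1 ha
    rw [← h2]
    exact odd_sqf hQ2 h1 (hγ a hane)
  have hmaps : ∀ S : Finset ι, S.card = s → ∀ a ∈ PQ ι Q, ∏ i ∈ S, a i ∈ Icc 1 Y := by
    intro S hS a ha
    rw [mem_Icc]
    constructor
    · exact Nat.one_le_iff_ne_zero.2 (prod_ne_zero_iff.2 fun i _ =>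
        (hQp _ (Fintype.mem_piFinset.1 ha i)).ne_zero)
    · rw [hY, ← hS]
      exact prod_le_pow_card _ _ _ fun i _ => (hQ _ (Fintype.mem_piFinset.1 ha i)).2.2
  have hmain : ∑ a ∈ PQ ι Q, ∑ b ∈ PQ ι Q,
      α a * β b * Jr ((∏ i ∈ A, a i : ℕ) : ℤ) (∏ i ∈ B, b i) =
      K ^ 2 * ∑ m ∈ Icc 1 Y, ∑ n ∈ Icc 1 Y, (c m / K) * (d n / K) * Jr m n := by
    have h1 : ∑ a ∈ PQ ι Q, ∑ b ∈ PQ ι Q,
        α a * β b * Jr ((∏ i ∈ A, a i : ℕ) : ℤ) (∏ i ∈ B, b i) =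
        ∑ m ∈ Icc 1 Y, ∑ n ∈ Icc 1 Y, c m * d n * Jr m n := by
      rw [← sum_fiberwise_of_maps_to (hmaps A hA)]
      refine sum_congr rfl fun m _ => ?_
      have h2 : ∀ a ∈ (PQ ι Q).filter (fun a => ∏ i ∈ A, a i = m), ∑ b ∈ PQ ι Q,
          α a * β b * Jr ((∏ i ∈ A, a i : ℕ) : ℤ) (∏ i ∈ B, b i) =
          α a * ∑ n ∈ Icc 1 Y, d n * Jr m n := by
        intro a ha
        rw [(mem_filter.1 ha).2, ← sum_fiberwise_of_maps_to (hmaps B hB), mul_sum]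
        refine sum_congr rfl fun n _ => ?_
        have h3 : ∀ b ∈ (PQ ι Q).filter (fun b => ∏ i ∈ B, b i = n),
            α a * β b * Jr (m : ℤ) (∏ i ∈ B, b i) = α a * (β b * Jr m n) := by
          intro b hb
          rw [(mem_filter.1 hb).2, mul_assoc]
        rw [sum_congr rfl h3, ← mul_sum, ← sum_mul]
      rw [sum_congr rfl h2, ← sum_mul, mul_sum]
      refine sum_congr rfl fun n _ => ?_
      rw [hc]
      ring
    rw [h1, mul_sum]
    refine sum_congr rfl fun m _ => ?_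
    rw [mul_sum]
    refine sum_congr rfl fun n _ => ?_
    field_simp
  rw [hmain, abs_mul, abs_of_nonneg (sq_nonneg K)]
  refine mul_le_mul_of_nonneg_left ?_ (sq_nonneg K)
  refine hbil Y hY1 (fun m => c m / K) (fun m => d m / K) ?_ ?_ ?_ ?_
  · intro m
    rw [abs_div, abs_of_pos hK0, div_le_one hK0]
    exact hbd A α hA hα m
  · intro m
    rw [abs_div, abs_of_pos hK0, div_le_one hK0]
    exact hbd B β hB hβ m
  · intro m hm
    exact hsup A α hα' m (fun h => hm (by rw [hc]; simp only [h, zero_div]))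
  · intro m hm
    exact hsup B β hβ' m (fun h => hm (by rw [hd]; simp only [h, zero_div]))

end Pool.Agent.TH715.RS
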