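import Mathlib
import Pool.Agent.TH715.RS.Tup

/-!
# Sums of products of symbols, for a fixed colouring
-/

set_option autoImplicit false

namespace Pool.Agent.TH715.RS

open Finset

open Pool.Agent.W262.RK (Jr)

variable {ι : Type} [Fintype ι] [DecidableEq ι] {R : Type} [Fintype R]

open Classical in
/-- the product of the symbols for the colouring `u` -/
noncomputable def tm (χ : (R → Bool × Bool) → ℕ → ℝ) (u : ι → R → Bool × Bool) (x : ι → ℕ) : ℝ :=
  (if Function.Injective x then 1 else 0) * (∏ i, χ (u i) (x i)) *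
    ∏ i, ∏ l, Jr (x i) (x l) ^ nn (u i) (u l)

lemma jr_sq {p q : ℕ} (hp : p.Prime) (hq : q.Prime) (hpq : p ≠ q) :
    Jr (p : ℤ) q = 1 ∨ Jr (p : ℤ) q = -1 := by
  have h1 : Int.gcd (p : ℤ) (q : ℤ) = 1 := by
    rw [Int.gcd_natCast_natCast]
    exact (Nat.coprime_primes hp hq).2 hpq
  unfold Jr
  rcases jacobiSym.eq_one_or_neg_one h1 with h | h
  · left
    rw [h]
    simp
  · right
    rw [h]
    simp

lemma jr_odd {x : ℝ} (hx : x = 1 ∨ x = -1) {n : ℕ} (hn : Odd n) : x ^ n = x := by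
  rcases hx with rfl | rfl
  · exact one_pow n
  · exact hn.neg_one_pow

lemma jr_even {x : ℝ} (hx : x = 1 ∨ x = -1) {n : ℕ} (hn : Even n) : x ^ n = 1 := by
  rcases hx with rfl | rfl
  · exact one_pow n
  · exact hn.neg_one_pow

lemma jr_prod_right (a : ℤ) (B : Finset ι) (z : ι → ℕ) (hz : ∀ i ∈ B, z i ≠ 0) :
    Jr a (∏ l ∈ B, z l) = ∏ l ∈ B, Jr a (z l) := by
  induction B using Finset.induction_on with
  | empty => simp [Jr]
  | insert i B hi ih =>
    rw [prod_insert hi, prod_insert hi, ← ih fun l hl => hz l (mem_insert_of_mem hl)]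
    have h1 : z i ≠ 0 := hz i (mem_insert_self _ _)
    have h2 : ∏ l ∈ B, z l ≠ 0 := prod_ne_zero_iff.2 fun l hl => hz l (mem_insert_of_mem hl)
    unfold Jr
    rw [jacobiSym.mul_right' _ h1 h2]
    push_cast
    rfl

lemma jr_prod_left (A : Finset ι) (z : ι → ℕ) (n : ℕ) :
    Jr ((∏ i ∈ A, z i : ℕ) : ℤ) n = ∏ i ∈ A, Jr (z i) n := by
  induction A using Finset.induction_on with
  | empty => simp [Jr, jacobiSym.one_left]
  | insert i A hi ih =>
    rw [prod_insert hi, prod_insert hi, ← ih]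
    unfold Jr
    rw [Nat.cast_mul, jacobiSym.mul_left]
    push_cast
    rfl

lemma jr_prods (A B : Finset ι) (z : ι → ℕ) (hz : ∀ i, z i ≠ 0) :
    Jr ((∏ i ∈ A, z i : ℕ) : ℤ) (∏ l ∈ B, z l) = ∏ i ∈ A, ∏ l ∈ B, Jr (z i) (z l) := by
  rw [jr_prod_left]
  exact prod_congr rfl fun i _ => jr_prod_right _ B z fun l _ => hz l

section fact

variable (χ : (R → Bool × Bool) → ℕ → ℝ) (u : ι → R → Bool × Bool) (A B : Finset ι)

open Classical in
/-- the part that does not depend on the coordinates in `B` -/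
noncomputable def FF (z : ι → ℕ) : ℝ :=
  (if Set.InjOn z {i | i ∉ B} then 1 else 0) * (∏ i, if i ∈ B then 1 else χ (u i) (z i)) *
    ∏ i, ∏ l, if i ∈ B ∨ l ∈ B then 1 else Jr (z i) (z l) ^ nn (u i) (u l)

open Classical in
/-- the part that does not depend on the coordinates in `A` -/
noncomputable def GG (z : ι → ℕ) : ℝ :=
  (if Set.InjOn z {i | i ∉ A} then 1 else 0) * (∏ i, if i ∈ B then χ (u i) (z i) else 1) *
    ∏ i, ∏ l, if (i ∈ B ∨ l ∈ B) ∧ i ∉ A ∧ l ∉ A then Jr (z i) (z l) ^ nn (u i) (u l) else 1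

lemma FF_congr {z z' : ι → ℕ} (h : ∀ i, i ∉ B → z i = z' i) : FF χ u B z = FF χ u B z' := by
  classical
  unfold FF
  have h1 : Set.InjOn z {i | i ∉ B} ↔ Set.InjOn z' {i | i ∉ B} := by
    constructor
    · intro hz i hi l hl hil
      exact hz hi hl (by rw [h i hi, h l hl, hil])
    · intro hz i hi l hl hil
      exact hz hi hl (by rw [← h i hi, ← h l hl, hil])
  have h2 : (if Set.InjOn z {i | i ∉ B} then (1 : ℝ) else 0) =
      if Set.InjOn z' {i | i ∉ B} then (1 : ℝ) else 0 := by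
    by_cases hz : Set.InjOn z {i | i ∉ B}
    · rw [if_pos hz, if_pos (h1.1 hz)]
    · rw [if_neg hz, if_neg (fun h => hz (h1.2 h))]
  rw [h2]
  congr 1
  · congr 1
    refine prod_congr rfl fun i _ => ?_
    by_cases hi : i ∈ B
    · rw [if_pos hi, if_pos hi]
    · rw [if_neg hi, if_neg hi, h i hi]
  · refine prod_congr rfl fun i _ => prod_congr rfl fun l _ => ?_
    by_cases hi : i ∈ B ∨ l ∈ B
    · rw [if_pos hi, if_pos hi]
    · rw [if_neg hi, if_neg hi]
      rw [not_or] at hi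
      rw [h i hi.1, h l hi.2]

lemma GG_congr {z z' : ι → ℕ} (hAB : Disjoint A B) (h : ∀ i, i ∉ A → z i = z' i) :
    GG χ u A B z = GG χ u A B z' := by
  classical
  unfold GG
  have h1 : Set.InjOn z {i | i ∉ A} ↔ Set.InjOn z' {i | i ∉ A} := by
    constructor
    · intro hz i hi l hl hil
      exact hz hi hl (by rw [h i hi, h l hl, hil])
    · intro hz i hi l hl hil
      exact hz hi hl (by rw [← h i hi, ← h l hl, hil])
  have h2 : (if Set.InjOn z {i | i ∉ A} then (1 : ℝ) else 0) =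
      if Set.InjOn z' {i | i ∉ A} then (1 : ℝ) else 0 := by
    by_cases hz : Set.InjOn z {i | i ∉ A}
    · rw [if_pos hz, if_pos (h1.1 hz)]
    · rw [if_neg hz, if_neg (fun h => hz (h1.2 h))]
  rw [h2]
  congr 1
  · congr 1
    refine prod_congr rfl fun i _ => ?_
    by_cases hi : i ∈ B
    · rw [if_pos hi, if_pos hi, h i fun hA => disjoint_left.1 hAB hA hi]
    · rw [if_neg hi, if_neg hi]
  · refine prod_congr rfl fun i _ => prod_congr rfl fun l _ => ?_
    by_cases hi : (i ∈ B ∨ l ∈ B) ∧ i ∉ A ∧ l ∉ A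
    · rw [if_pos hi, if_pos hi, h i hi.2.1, h l hi.2.2]
    · rw [if_neg hi, if_neg hi]

lemma prod_abs_le {α : Type} (s : Finset α) (f : α → ℝ) (h : ∀ i ∈ s, |f i| ≤ 1) :
    |∏ i ∈ s, f i| ≤ 1 := by
  rw [abs_prod]
  exact prod_le_one (fun i _ => abs_nonneg _) h

lemma FF_abs (hχ : ∀ v p, |χ v p| ≤ 1) (z : ι → ℕ) : |FF χ u B z| ≤ 1 := by
  classical
  unfold FF
  rw [abs_mul, abs_mul]
  have h1 : |(if Set.InjOn z {i | i ∉ B} then (1 : ℝ) else 0)| ≤ 1 := by
    split_ifs <;> simp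
  have h2 : |∏ i, if i ∈ B then 1 else χ (u i) (z i)| ≤ 1 := by
    refine prod_abs_le _ _ fun i _ => ?_
    split_ifs
    · simp
    · exact hχ _ _
  have h3 : |∏ i, ∏ l, if i ∈ B ∨ l ∈ B then 1 else Jr (z i) (z l) ^ nn (u i) (u l)| ≤ 1 := by
    refine prod_abs_le _ _ fun i _ => prod_abs_le _ _ fun l _ => ?_
    split_ifs
    · simp
    · rw [abs_pow]
      exact pow_le_one₀ (abs_nonneg _) (jr_abs _ _)
  calc _ ≤ (1 : ℝ) * 1 * 1 := mul_le_mul (mul_le_mul h1 h2 (abs_nonneg _) zero_le_one) h3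
        (abs_nonneg _) (by norm_num)
    _ = 1 := by norm_num

lemma GG_abs (hχ : ∀ v p, |χ v p| ≤ 1) (z : ι → ℕ) : |GG χ u A B z| ≤ 1 := by
  classical
  unfold GG
  rw [abs_mul, abs_mul]
  have h1 : |(if Set.InjOn z {i | i ∉ A} then (1 : ℝ) else 0)| ≤ 1 := by
    split_ifs <;> simp
  have h2 : |∏ i, if i ∈ B then χ (u i) (z i) else 1| ≤ 1 := by
    refine prod_abs_le _ _ fun i _ => ?_
    split_ifs
    · exact hχ _ _
    · simp
  have h3 : |∏ i, ∏ l, if (i ∈ B ∨ l ∈ B) ∧ i ∉ A ∧ l ∉ A then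
      Jr (z i) (z l) ^ nn (u i) (u l) else 1| ≤ 1 := by
    refine prod_abs_le _ _ fun i _ => prod_abs_le _ _ fun l _ => ?_
    split_ifs
    · rw [abs_pow]
      exact pow_le_one₀ (abs_nonneg _) (jr_abs _ _)
    · simp
  calc _ ≤ (1 : ℝ) * 1 * 1 := mul_le_mul (mul_le_mul h1 h2 (abs_nonneg _) zero_le_one) h3
        (abs_nonneg _) (by norm_num)
    _ = 1 := by norm_num

variable {χ u A B}

/-- the factorisation -/
lemma tm_fact {v w : R → Bool × Bool} (hAB : Disjoint A B) (hA : ∀ i ∈ A, u i = v)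
    (hB : ∀ i ∈ B, u i = w) (hvw : Odd (nn v w)) (hwv : Even (nn w v)) {z : ι → ℕ}
    (hz : ∀ i, (z i).Prime) :
    tm χ u z = FF χ u B z * GG χ u A B z *
      Jr ((∏ i ∈ A, z i : ℕ) : ℤ) (∏ i ∈ B, z i) := by
  classical
  have hz0 : ∀ i, z i ≠ 0 := fun i => (hz i).ne_zero
  by_cases hinj : Function.Injective z
  · unfold tm FF GG
    rw [if_pos hinj, if_pos (hinj.injOn), if_pos (hinj.injOn), jr_prods A B z hz0]
    have h1 : ∏ i, χ (u i) (z i) = (∏ i, if i ∈ B then 1 else χ (u i) (z i)) *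
        ∏ i, if i ∈ B then χ (u i) (z i) else 1 := by
      rw [← prod_mul_distrib]
      refine prod_congr rfl fun i _ => ?_
      split_ifs <;> ring
    have h2 : ∏ i, ∏ l, Jr (z i) (z l) ^ nn (u i) (u l) =
        (∏ i, ∏ l, if i ∈ B ∨ l ∈ B then 1 else Jr (z i) (z l) ^ nn (u i) (u l)) *
        (∏ i, ∏ l, if (i ∈ B ∨ l ∈ B) ∧ i ∉ A ∧ l ∉ A then
          Jr (z i) (z l) ^ nn (u i) (u l) else 1) *
        ∏ i, ∏ l, if i ∈ A ∧ l ∈ B then Jr (z i) (z l) else 1 := by
      rw [← prod_mul_distrib, ← prod_mul_distrib]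
      refine prod_congr rfl fun i _ => ?_
      rw [← prod_mul_distrib, ← prod_mul_distrib]
      refine prod_congr rfl fun l _ => ?_
      by_cases hiB : i ∈ B
      · have hiA : i ∉ A := fun h => disjoint_left.1 hAB h hiB
        by_cases hlA : l ∈ A
        · have hlB : l ∉ B := fun h => disjoint_left.1 hAB hlA h
          have hil : i ≠ l := by
            rintro rfl
            exact hiA hlA
          rw [if_pos (Or.inl hiB), if_neg (fun h => h.2.2 hlA), if_neg (fun h => hiA h.1),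
            hB i hiB, hA l hlA, jr_even (jr_sq (hz i) (hz l) (hinj.ne hil)) hwv]
          norm_num
        · rw [if_pos (Or.inl hiB), if_pos ⟨Or.inl hiB, hiA, hlA⟩, if_neg (fun h => hiA h.1)]
          ring
      · by_cases hlB : l ∈ B
        · have hlA : l ∉ A := fun h => disjoint_left.1 hAB h hlB
          by_cases hiA : i ∈ A
          · have hil : i ≠ l := by
              rintro rfl
              exact hiB hlB
            rw [if_pos (Or.inr hlB), if_neg (fun h => h.2.1 hiA), if_pos ⟨hiA, hlB⟩,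
              hA i hiA, hB l hlB, jr_odd (jr_sq (hz i) (hz l) (hinj.ne hil)) hvw]
            ring
          · rw [if_pos (Or.inr hlB), if_pos ⟨Or.inr hlB, hiA, hlA⟩, if_neg (fun h => hiA h.1)]
            ring
        · rw [if_neg (not_or.2 ⟨hiB, hlB⟩), if_neg (fun h => (not_or.2 ⟨hiB, hlB⟩) h.1),
            if_neg (fun h => hlB h.2)]
          ring
    have h3 : ∏ i, ∏ l, (if i ∈ A ∧ l ∈ B then Jr (z i) (z l) else 1) =
        ∏ i ∈ A, ∏ l ∈ B, Jr (z i) (z l) := by
      have h4 : ∀ i : ι, ∏ l, (if i ∈ A ∧ l ∈ B then Jr (z i) (z l) else 1) =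
          if i ∈ A then ∏ l ∈ B, Jr (z i) (z l) else 1 := by
        intro i
        by_cases hi : i ∈ A
        · rw [if_pos hi, ← prod_filter_mul_prod_filter_not univ (fun l => l ∈ B)]
          have h5 : univ.filter (fun l => l ∈ B) = B := by
            ext l
            simp
          rw [h5, prod_congr rfl fun l hl => if_pos ⟨hi, hl⟩,
            prod_eq_one (s := univ.filter (fun l => l ∉ B))
              (fun l hl => if_neg (fun h => (mem_filter.1 hl).2 h.2)), mul_one]
        · rw [if_neg hi]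
          exact prod_eq_one fun l _ => if_neg (fun h => hi h.1)
      rw [prod_congr rfl fun i _ => h4 i, ← prod_filter_mul_prod_filter_not univ (fun l => l ∈ A)]
      have h5 : univ.filter (fun l => l ∈ A) = A := by
        ext l
        simp
      rw [h5, prod_congr rfl fun l hl => if_pos hl,
        prod_eq_one (s := univ.filter (fun l => l ∉ A))
          (fun l hl => if_neg (mem_filter.1 hl).2), mul_one]
    rw [h1, h2, h3]
    ring
  · have h0 : tm χ u z = 0 := by
      unfold tm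
      rw [if_neg hinj, zero_mul, zero_mul]
    rw [h0]
    by_cases hI : Set.InjOn z {i | i ∉ B}
    · by_cases hJ : Set.InjOn z {i | i ∉ A}
      · have h1 : Jr ((∏ i ∈ A, z i : ℕ) : ℤ) (∏ i ∈ B, z i) = 0 := by
          unfold Function.Injective at hinj
          push Not at hinj
          obtain ⟨i, l, hil, hne⟩ := hinj
          have key : ∀ i l : ι, z i = z l → i ∈ A → l ∈ B →
              Jr ((∏ i ∈ A, z i : ℕ) : ℤ) (∏ i ∈ B, z i) = 0 := by
            intro i l hil hi hl
            rw [jr_prods A B z hz0]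
            refine prod_eq_zero hi (prod_eq_zero hl ?_)
            unfold Jr
            rw [hil]
            have h2 : jacobiSym ((z l : ℕ) : ℤ) (z l) = 0 := by
              rw [jacobiSym.eq_zero_iff]
              refine ⟨hz0 l, ?_⟩
              rw [Int.gcd_natCast_natCast, Nat.gcd_self]
              exact (hz l).ne_one
            rw [h2]
            simp
          by_cases hi : i ∈ B
          · by_cases hl : l ∈ A
            · exact key l i hil.symm hl hi
            · have hiA : i ∉ A := fun h => disjoint_left.1 hAB h hi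
              exact absurd (hJ hiA hl hil) hne
          · by_cases hl : l ∈ B
            · by_cases hiA : i ∈ A
              · exact key i l hil hiA hl
              · have hlA : l ∉ A := fun h => disjoint_left.1 hAB h hl
                exact absurd (hJ hiA hlA hil) hne
            · exact absurd (hI hi hl hil) hne
        rw [h1, mul_zero]
      · unfold GG
        rw [if_neg hJ]
        ring
    · unfold FF
      rw [if_neg hI]
      ring

end fact

/-- the bound for a colouring with a linked pair -/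
theorem tm_bound : ∃ (C : ℝ) (E : ℕ), 0 ≤ C ∧
    ∀ (ι : Type) [Fintype ι] [DecidableEq ι] (R : Type) [Fintype R] (Q : Finset ℕ) (y : ℕ)
      (A B : Finset ι) (s : ℕ), (∀ q ∈ Q, q.Prime ∧ q ≠ 2 ∧ q ≤ y) → Q.Nonempty → 1 ≤ y → 1 ≤ s →
      A.card = s → B.card = s → Disjoint A B →
      ∀ (χ : (R → Bool × Bool) → ℕ → ℝ) (u : ι → R → Bool × Bool) (v w : R → Bool × Bool),
        (∀ v p, |χ v p| ≤ 1) → (∀ i ∈ A, u i = v) → (∀ i ∈ B, u i = w) → Odd (nn v w) →
        Even (nn w v) →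
      |∑ x ∈ PQ ι Q, tm χ u x| ≤ (Q.card : ℝ) ^ Fintype.card ι *
        (((s : ℝ) ^ s / (Q.card : ℝ) ^ s) ^ 2 *
          (C * (1 + Real.log (4 * ((y ^ s : ℕ) : ℝ))) ^ E *
            ((y ^ s : ℕ) : ℝ) ^ (11 / 6 : ℝ))) := by
  classical
  obtain ⟨C, E, hC, hT⟩ := tuple_bil
  refine ⟨C, E, hC, ?_⟩
  intro ι _ _ R _ Q y A B s hQ hne hy hs hA hB hAB χ u v w hχ huA huB hvw hwv
  set W : ℝ := C * (1 + Real.log (4 * ((y ^ s : ℕ) : ℝ))) ^ E *
    ((y ^ s : ℕ) : ℝ) ^ (11 / 6 : ℝ) with hW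
  set j : ℕ := Fintype.card ι with hj
  have hsj : s ≤ j := by
    rw [← hA, hj]
    exact card_le_univ A
  have hN0 : (0 : ℝ) < Q.card := by exact_mod_cast hne.card_pos
  have hprime : ∀ z ∈ PQ ι Q, ∀ i, (z i).Prime := fun z hz i =>
    (hQ _ (Fintype.mem_piFinset.1 hz i)).1
  have h1 : ∀ x ∈ PQ ι Q, |∑ a ∈ PQ ι Q, ∑ b ∈ PQ ι Q, tm χ u (A.piecewise a (B.piecewise b x))| ≤
      ((s : ℝ) ^ s * (Q.card : ℝ) ^ (j - s)) ^ 2 * W := by
    intro x hx
    have h2 : ∑ a ∈ PQ ι Q, ∑ b ∈ PQ ι Q, tm χ u (A.piecewise a (B.piecewise b x)) =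
        ∑ a ∈ PQ ι Q, ∑ b ∈ PQ ι Q, FF χ u B (A.piecewise a x) * GG χ u A B (B.piecewise b x) *
          Jr ((∏ i ∈ A, a i : ℕ) : ℤ) (∏ i ∈ B, b i) := by
      refine sum_congr rfl fun a ha => sum_congr rfl fun b hb => ?_
      rw [tm_fact hAB huA huB hvw hwv (hprime _ (pw_mem ha (pw_mem hb hx)))]
      have h3 : FF χ u B (A.piecewise a (B.piecewise b x)) = FF χ u B (A.piecewise a x) := by
        refine FF_congr χ u B fun i hi => ?_
        by_cases hiA : i ∈ A
        · rw [piecewise_eq_of_mem _ _ _ hiA, piecewise_eq_of_mem _ _ _ hiA]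
        · rw [piecewise_eq_of_notMem _ _ _ hiA, piecewise_eq_of_notMem _ _ _ hiA,
            piecewise_eq_of_notMem _ _ _ hi]
      have h4 : GG χ u A B (A.piecewise a (B.piecewise b x)) = GG χ u A B (B.piecewise b x) := by
        refine GG_congr χ u A B hAB fun i hi => ?_
        rw [piecewise_eq_of_notMem _ _ _ hi]
      have h5 : ∏ i ∈ A, (A.piecewise a (B.piecewise b x)) i = ∏ i ∈ A, a i :=
        prod_congr rfl fun i hi => piecewise_eq_of_mem _ _ _ hi
      have h6 : ∏ i ∈ B, (A.piecewise a (B.piecewise b x)) i = ∏ i ∈ B, b i := by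
        refine prod_congr rfl fun i hi => ?_
        rw [piecewise_eq_of_notMem _ _ _ (fun h => disjoint_left.1 hAB h hi),
          piecewise_eq_of_mem _ _ _ hi]
      rw [h3, h4, h5, h6]
    rw [h2]
    refine hT ι Q y A B s hQ hy hs hA hB (fun a => FF χ u B (A.piecewise a x))
      (fun b => GG χ u A B (B.piecewise b x)) (fun a => FF_abs χ u B hχ _)
      (fun b => GG_abs χ u A B hχ _) ?_ ?_
    · intro a ha
      have h3 : Set.InjOn (A.piecewise a x) {i | i ∉ B} := by
        by_contra h4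
        apply ha
        simp only [FF]
        rw [if_neg h4]
        ring
      intro i hi l hl hil
      have hi' : i ∈ A := hi
      have hl' : l ∈ A := hl
      refine h3 (fun h => disjoint_left.1 hAB hi' h) (fun h => disjoint_left.1 hAB hl' h) ?_
      rw [piecewise_eq_of_mem _ _ _ hi', piecewise_eq_of_mem _ _ _ hl']
      exact hil
    · intro b hb
      have h3 : Set.InjOn (B.piecewise b x) {i | i ∉ A} := by
        by_contra h4
        apply hb
        simp only [GG]
        rw [if_neg h4]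
        ring
      intro i hi l hl hil
      have hi' : i ∈ B := hi
      have hl' : l ∈ B := hl
      refine h3 (fun h => disjoint_left.1 hAB h hi') (fun h => disjoint_left.1 hAB h hl') ?_
      rw [piecewise_eq_of_mem _ _ _ hi', piecewise_eq_of_mem _ _ _ hl']
      exact hil
  have h2 := resample2 Q A B (tm χ u)
  have h3 : |(Q.card : ℝ) ^ j * ((Q.card : ℝ) ^ j * ∑ z ∈ PQ ι Q, tm χ u z)| ≤
      (Q.card : ℝ) ^ j * (((s : ℝ) ^ s * (Q.card : ℝ) ^ (j - s)) ^ 2 * W) := by
    rw [← h2]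
    refine (abs_sum_le_sum_abs _ _).trans ((sum_le_sum h1).trans ?_)
    rw [sum_const, nsmul_eq_mul, card_PQ]
  have hNj : (0 : ℝ) < (Q.card : ℝ) ^ j := by positivity
  rw [abs_mul, abs_mul, abs_of_pos hNj] at h3
  have h4 := le_of_mul_le_mul_left h3 hNj
  have h5 : (Q.card : ℝ) ^ j = (Q.card : ℝ) ^ (j - s) * (Q.card : ℝ) ^ s := by
    rw [← pow_add]
    congr 1
    omega
  refine le_of_mul_le_mul_left (h4.trans (le_of_eq ?_)) hNj
  have hNs : (Q.card : ℝ) ^ s ≠ 0 := by positivity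
  rw [h5]
  field_simp

end Pool.Agent.TH715.RS
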