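import Mathlib
import Pool.Agent.TH715.RS.Fact

/-!
# The sum over all colourings
-/

set_option autoImplicit false

namespace Pool.Agent.TH715.RS

open Finset

open Pool.Agent.W262.RK (Jr)

/-- the numerical estimate -/
lemma numer (C₀ : ℝ) (hC₀ : 0 ≤ C₀) (E : ℕ) : ∃ C₂ : ℝ, 1 ≤ C₂ ∧ ∀ (s y : ℕ) (N : ℝ), 1 ≤ s →
    1 ≤ y → (y : ℝ) ^ (19 / 20 : ℝ) ≤ N →
    ((s : ℝ) ^ s / N ^ s) ^ 2 * (C₀ * (1 + Real.log (4 * ((y ^ s : ℕ) : ℝ))) ^ E *
      ((y ^ s : ℕ) : ℝ) ^ (11 / 6 : ℝ)) ≤ (C₂ * (s : ℝ) ^ 2 * (y : ℝ) ^ (-(1 / 20) : ℝ)) ^ s := by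
  set δ : ℝ := 1 / (60 * ((E : ℝ) + 1)) with hδ
  have hδ0 : 0 < δ := by positivity
  have hδ1 : δ ≤ 1 := by
    rw [hδ, div_le_one (by positivity)]
    have : (0 : ℝ) ≤ E := Nat.cast_nonneg E
    nlinarith
  have hδE : δ * E ≤ 1 / 60 := by
    rw [hδ, div_mul_eq_mul_div, one_mul, div_le_iff₀ (by positivity)]
    have : (0 : ℝ) ≤ E := Nat.cast_nonneg E
    nlinarith
  set K : ℝ := (4 * (1 + 1 / δ)) ^ E with hK
  refine ⟨max 1 (C₀ * K), le_max_left _ _, ?_⟩
  intro s y N hs hy hN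
  have hyr : (1 : ℝ) ≤ y := by exact_mod_cast hy
  have hy0 : (0 : ℝ) < y := by linarith
  set Y : ℝ := ((y ^ s : ℕ) : ℝ) with hY
  have hYy : Y = (y : ℝ) ^ s := by rw [hY]; push_cast; rfl
  have hY1 : 1 ≤ Y := by rw [hYy]; exact one_le_pow₀ hyr
  have hY0 : 0 < Y := by linarith
  have hs0 : (0 : ℝ) < s := by exact_mod_cast hs
  have hyN : 0 < (y : ℝ) ^ (19 / 20 : ℝ) := Real.rpow_pos_of_pos hy0 _
  have hN0 : 0 < N := lt_of_lt_of_le hyN hN
  -- first factor
  have h1 : ((s : ℝ) ^ s / N ^ s) ^ 2 ≤ ((s : ℝ) ^ 2 * (y : ℝ) ^ (-(19 / 10) : ℝ)) ^ s := by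
    have h2 : ((s : ℝ) ^ s / N ^ s) ^ 2 = ((s : ℝ) ^ 2 * (N⁻¹) ^ 2) ^ s := by
      rw [← div_pow, ← pow_mul, mul_comm s 2, pow_mul, div_pow, mul_pow, inv_pow, div_eq_mul_inv]
      rw [← mul_pow]
    rw [h2]
    refine pow_le_pow_left₀ (by positivity) ?_ s
    refine mul_le_mul_of_nonneg_left ?_ (by positivity)
    have h3 : N⁻¹ ≤ (y : ℝ) ^ (-(19 / 20) : ℝ) := by
      rw [Real.rpow_neg hy0.le]
      exact inv_anti₀ hyN hN
    calc (N⁻¹) ^ 2 ≤ ((y : ℝ) ^ (-(19 / 20) : ℝ)) ^ 2 := pow_le_pow_left₀ (by positivity) h3 2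
      _ = _ := by
        rw [← Real.rpow_natCast, ← Real.rpow_mul hy0.le]
        norm_num
  -- the logarithm
  have hlog0 : 0 ≤ Real.log (4 * Y) := Real.log_nonneg (by linarith)
  have h2 : 1 + Real.log (4 * Y) ≤ 4 * (1 + 1 / δ) * Y ^ δ := by
    have h3 := Real.log_le_rpow_div (by linarith : (0 : ℝ) ≤ 4 * Y) hδ0
    have h4 : (4 * Y) ^ δ ≤ 4 * Y ^ δ := by
      rw [Real.mul_rpow (by norm_num) hY0.le]
      refine mul_le_mul_of_nonneg_right ?_ (Real.rpow_nonneg hY0.le _)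
      calc (4 : ℝ) ^ δ ≤ 4 ^ (1 : ℝ) := Real.rpow_le_rpow_of_exponent_le (by norm_num) hδ1
        _ = 4 := Real.rpow_one 4
    have h5 : 1 ≤ Y ^ δ := Real.one_le_rpow hY1 hδ0.le
    have h6 : (4 * Y) ^ δ / δ ≤ 4 * Y ^ δ / δ := div_le_div_of_nonneg_right h4 hδ0.le
    have h7 : 4 * (1 + 1 / δ) * Y ^ δ = 4 * Y ^ δ + 4 * Y ^ δ / δ := by
      field_simp
    rw [h7]
    linarith
  have h3 : C₀ * (1 + Real.log (4 * Y)) ^ E ≤ (max 1 (C₀ * K) * (y : ℝ) ^ (1 / 60 : ℝ)) ^ s := by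
    have h4 : (1 + Real.log (4 * Y)) ^ E ≤ K * Y ^ (1 / 60 : ℝ) := by
      calc (1 + Real.log (4 * Y)) ^ E ≤ (4 * (1 + 1 / δ) * Y ^ δ) ^ E :=
            pow_le_pow_left₀ (by linarith) h2 E
        _ = K * Y ^ (δ * E) := by
            rw [mul_pow, hK, ← Real.rpow_natCast (Y ^ δ), ← Real.rpow_mul hY0.le]
        _ ≤ _ := by
            refine mul_le_mul_of_nonneg_left ?_ (by positivity)
            exact Real.rpow_le_rpow_of_exponent_le hY1 hδE
    have h5 : Y ^ (1 / 60 : ℝ) = ((y : ℝ) ^ (1 / 60 : ℝ)) ^ s := by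
      rw [hYy, ← Real.rpow_natCast, ← Real.rpow_natCast, ← Real.rpow_mul hy0.le,
        ← Real.rpow_mul hy0.le, mul_comm]
    have h6 : 1 ≤ max 1 (C₀ * K) := le_max_left _ _
    calc C₀ * (1 + Real.log (4 * Y)) ^ E ≤ C₀ * (K * Y ^ (1 / 60 : ℝ)) :=
          mul_le_mul_of_nonneg_left h4 hC₀
      _ = (C₀ * K) * Y ^ (1 / 60 : ℝ) := by ring
      _ ≤ (max 1 (C₀ * K)) ^ s * Y ^ (1 / 60 : ℝ) := by
          refine mul_le_mul_of_nonneg_right ?_ (Real.rpow_nonneg hY0.le _)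
          exact (le_max_right _ _).trans (le_self_pow₀ h6 (by omega))
      _ = _ := by rw [h5, mul_pow]
  have h4 : Y ^ (11 / 6 : ℝ) = ((y : ℝ) ^ (11 / 6 : ℝ)) ^ s := by
    rw [hYy, ← Real.rpow_natCast, ← Real.rpow_natCast, ← Real.rpow_mul hy0.le,
      ← Real.rpow_mul hy0.le, mul_comm]
  have h5 : 0 ≤ C₀ * (1 + Real.log (4 * Y)) ^ E := by
    have : 0 ≤ 1 + Real.log (4 * Y) := by linarith
    positivity
  calc ((s : ℝ) ^ s / N ^ s) ^ 2 * (C₀ * (1 + Real.log (4 * Y)) ^ E * Y ^ (11 / 6 : ℝ))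
      ≤ ((s : ℝ) ^ 2 * (y : ℝ) ^ (-(19 / 10) : ℝ)) ^ s *
        ((max 1 (C₀ * K) * (y : ℝ) ^ (1 / 60 : ℝ)) ^ s * ((y : ℝ) ^ (11 / 6 : ℝ)) ^ s) := by
        rw [h4]
        refine mul_le_mul h1 (mul_le_mul_of_nonneg_right h3 (by positivity)) (by positivity)
          (by positivity)
    _ = (max 1 (C₀ * K) * (s : ℝ) ^ 2 * ((y : ℝ) ^ (-(19 / 10) : ℝ) * (y : ℝ) ^ (1 / 60 : ℝ) *
          (y : ℝ) ^ (11 / 6 : ℝ))) ^ s := by
        rw [← mul_pow, ← mul_pow]
        congr 1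
        ring
    _ = _ := by
        rw [← Real.rpow_add hy0, ← Real.rpow_add hy0]
        norm_num

lemma tm_abs {ι : Type} [Fintype ι] [DecidableEq ι] {R : Type} [Fintype R]
    {χ : (R → Bool × Bool) → ℕ → ℝ} (hχ : ∀ v p, |χ v p| ≤ 1) (u : ι → R → Bool × Bool)
    (x : ι → ℕ) : |tm χ u x| ≤ 1 := by
  classical
  unfold tm
  rw [abs_mul, abs_mul]
  have h1 : |(if Function.Injective x then (1 : ℝ) else 0)| ≤ 1 := by
    split_ifs <;> simp
  have h2 : |∏ i, χ (u i) (x i)| ≤ 1 := prod_abs_le _ _ fun i _ => hχ _ _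
  have h3 : |∏ i, ∏ l, Jr (x i) (x l) ^ nn (u i) (u l)| ≤ 1 := by
    refine prod_abs_le _ _ fun i _ => prod_abs_le _ _ fun l _ => ?_
    rw [abs_pow]
    exact pow_le_one₀ (abs_nonneg _) (jr_abs _ _)
  calc _ ≤ (1 : ℝ) * 1 * 1 := mul_le_mul (mul_le_mul h1 h2 (abs_nonneg _) zero_le_one) h3
        (abs_nonneg _) (by norm_num)
    _ = 1 := by norm_num

/-- the largest linked pair of colour classes -/
lemma exists_linked {ι : Type} [Fintype ι] [DecidableEq ι] {R : Type} [Fintype R] [DecidableEq R]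
    (u : ι → R → Bool × Bool) : ∃ (s : ℕ) (U : Finset (R → Bool × Bool)),
      (∀ a ∈ U, ∀ b ∈ U, Even (nn a b + nn b a)) ∧
      (univ.filter (fun i => u i ∉ U)).card ≤ Fintype.card (R → Bool × Bool) * s ∧
      (1 ≤ s → s ≤ Fintype.card ι ∧ ∃ (A B : Finset ι) (v w : R → Bool × Bool), A.card = s ∧
        B.card = s ∧ Disjoint A B ∧ (∀ i ∈ A, u i = v) ∧ (∀ i ∈ B, u i = w) ∧ Odd (nn v w) ∧
        Even (nn w v)) := by
  classical
  set n : (R → Bool × Bool) → ℕ := fun v => (univ.filter (fun i => u i = v)).card with hn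
  set g : (R → Bool × Bool) × (R → Bool × Bool) → ℕ := fun p =>
    if Odd (nn p.1 p.2) ∧ Even (nn p.2 p.1) then min (n p.1) (n p.2) else 0 with hg
  set s : ℕ := univ.sup g with hs
  set U : Finset (R → Bool × Bool) := univ.filter (fun v => s < n v) with hU
  have hle : ∀ v w, Odd (nn v w) → Even (nn w v) → min (n v) (n w) ≤ s := by
    intro v w h1 h2
    have h3 : g (v, w) ≤ s := le_sup (f := g) (mem_univ (v, w))
    rw [hg] at h3
    simp only at h3
    rwa [if_pos ⟨h1, h2⟩] at h3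
  refine ⟨s, U, ?_, ?_, ?_⟩
  · intro a ha b hb
    have ha' : s < n a := (mem_filter.1 ha).2
    have hb' : s < n b := (mem_filter.1 hb).2
    by_contra h
    rw [Nat.not_even_iff_odd, Nat.odd_add] at h
    by_cases h1 : Odd (nn a b)
    · have := hle a b h1 (h.1 h1)
      rcases min_le_iff.1 this with h2 | h2 <;> omega
    · have h2 : ¬ Even (nn b a) := fun h3 => h1 (h.2 h3)
      rw [Nat.not_even_iff_odd] at h2
      rw [Nat.not_odd_iff_even] at h1
      have := hle b a h2 h1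
      rcases min_le_iff.1 this with h2 | h2 <;> omega
  · have h1 : (univ.filter (fun i => u i ∉ U)).card =
        ∑ v ∈ univ.filter (fun v => v ∉ U), n v := by
      rw [card_eq_sum_card_fiberwise (f := u) (t := univ.filter (fun v => v ∉ U))]
      · refine sum_congr rfl fun v hv => ?_
        rw [hn]
        simp only
        congr 1
        ext i
        simp only [mem_filter, mem_univ, true_and]
        constructor
        · rintro ⟨_, h2⟩
          exact h2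
        · intro h2
          refine ⟨?_, h2⟩
          rw [h2]
          exact (mem_filter.1 hv).2
      · intro i hi
        rw [mem_coe, mem_filter] at hi ⊢
        exact ⟨mem_univ _, hi.2⟩
    rw [h1]
    calc ∑ v ∈ univ.filter (fun v => v ∉ U), n v ≤ ∑ v ∈ univ.filter (fun v => v ∉ U), s := by
          refine sum_le_sum fun v hv => ?_
          have h2 := (mem_filter.1 hv).2
          rw [hU, mem_filter] at h2
          by_contra h3
          exact h2 ⟨mem_univ _, by omega⟩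
      _ ≤ ∑ _v : R → Bool × Bool, s := sum_le_sum_of_subset (filter_subset _ _)
      _ = _ := by rw [sum_const, card_univ, smul_eq_mul]
  · intro hs1
    obtain ⟨p, _, hp⟩ := exists_mem_eq_sup (univ : Finset ((R → Bool × Bool) × (R → Bool × Bool)))
      ⟨(fun _ => (false, false), fun _ => (false, false)), mem_univ _⟩ g
    rw [← hs] at hp
    have hcond : Odd (nn p.1 p.2) ∧ Even (nn p.2 p.1) := by
      by_contra h
      have : g p = 0 := if_neg h
      omega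
    have hmin : min (n p.1) (n p.2) = s := by
      rw [hp, hg]
      simp only
      rw [if_pos hcond]
    have hA : s ≤ n p.1 := hmin ▸ min_le_left _ _
    have hB : s ≤ n p.2 := hmin ▸ min_le_right _ _
    obtain ⟨A, hA1, hA2⟩ := exists_subset_card_eq hA
    obtain ⟨B, hB1, hB2⟩ := exists_subset_card_eq hB
    have hne : p.1 ≠ p.2 := by
      intro h
      have h1 := hcond.1
      rw [h, nn_self] at h1
      exact absurd h1 (by decide)
    refine ⟨?_, A, B, p.1, p.2, hA2, hB2, ?_, fun i hi => (mem_filter.1 (hA1 hi)).2,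
      fun i hi => (mem_filter.1 (hB1 hi)).2, hcond.1, hcond.2⟩
    · rw [← hA2]
      exact card_le_univ A
    · rw [disjoint_left]
      intro i hi hi'
      exact hne (((mem_filter.1 (hA1 hi)).2).symm.trans (mem_filter.1 (hB1 hi')).2)

/-- **the sum over all colourings** -/
theorem sum_tm (R : Type) [Fintype R] [DecidableEq R] : ∃ (C : ℝ) (D : ℕ), 1 ≤ C ∧
    ∀ (j y : ℕ) (Q : Finset ℕ), (∀ q ∈ Q, q.Prime ∧ q ≠ 2 ∧ q ≤ y) →
      (y : ℝ) ^ (19 / 20 : ℝ) ≤ Q.card → C * ((j : ℝ) + 1) ^ D ≤ Q.card →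
      ∀ χ : (R → Bool × Bool) → ℕ → ℝ, (∀ v p, |χ v p| ≤ 1) →
        ∑ u : Fin j → R → Bool × Bool, |∑ x ∈ PQ (Fin j) Q, tm χ u x| ≤
          C * ((2 : ℝ) ^ Fintype.card R) ^ j * (Q.card : ℝ) ^ j := by
  classical
  obtain ⟨C₀, E, hC₀, hT⟩ := tm_bound
  obtain ⟨C₂, hC₂, hnum⟩ := numer C₀ hC₀ E
  set n : ℕ := Fintype.card (R → Bool × Bool) with hn
  have hn1 : 1 ≤ n := by
    rw [hn]
    exact Fintype.card_pos
  have hnr : (1 : ℝ) ≤ n := by exact_mod_cast hn1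
  set C₃ : ℝ := (C₂ * (n : ℝ) ^ n) ^ 20 with hC₃
  refine ⟨max C₃ (3 * 2 ^ n), 20 * (2 + n), ?_, ?_⟩
  · refine le_trans ?_ (le_max_right _ _)
    have : (1 : ℝ) ≤ 2 ^ n := one_le_pow₀ (by norm_num)
    linarith
  intro j y Q hQ hyQ hjQ χ hχ
  set C : ℝ := max C₃ (3 * 2 ^ n) with hC
  have hC3 : C₃ ≤ C := le_max_left _ _
  have hC4 : 3 * 2 ^ n ≤ C := le_max_right _ _
  set N : ℝ := (Q.card : ℝ) with hN
  have hj1 : (1 : ℝ) ≤ (j : ℝ) + 1 := by
    have : (0 : ℝ) ≤ j := Nat.cast_nonneg j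
    linarith
  have hC30 : 1 ≤ C₃ := one_le_pow₀ (by
    have : (1 : ℝ) ≤ (n : ℝ) ^ n := one_le_pow₀ hnr
    nlinarith)
  have hN1 : 1 ≤ N := by
    refine le_trans ?_ hjQ
    have : (1 : ℝ) ≤ ((j : ℝ) + 1) ^ (20 * (2 + n)) := one_le_pow₀ hj1
    nlinarith
  have hne : Q.Nonempty := by
    rw [nonempty_iff_ne_empty]
    rintro rfl
    rw [hN, card_empty, Nat.cast_zero] at hN1
    linarith
  have hNy : N ≤ y := by
    have h1 : Q ⊆ Icc 1 y := by
      intro q hq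
      rw [mem_Icc]
      exact ⟨(hQ q hq).1.one_lt.le, (hQ q hq).2.2⟩
    have h2 := card_le_card h1
    rw [Nat.card_Icc, Nat.add_sub_cancel] at h2
    rw [hN]
    exact_mod_cast h2
  have hyr : (1 : ℝ) ≤ y := hN1.trans hNy
  have hy1 : 1 ≤ y := by exact_mod_cast hyr
  have hy0 : (0 : ℝ) < y := by linarith
  -- the size of `y`
  have hy20 : C₂ * (n : ℝ) ^ n * ((j : ℝ) + 1) ^ (2 + n) ≤ (y : ℝ) ^ (1 / 20 : ℝ) := by
    have h1 : (C₂ * (n : ℝ) ^ n * ((j : ℝ) + 1) ^ (2 + n)) ^ 20 ≤ y := by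
      calc (C₂ * (n : ℝ) ^ n * ((j : ℝ) + 1) ^ (2 + n)) ^ 20
          = C₃ * ((j : ℝ) + 1) ^ (20 * (2 + n)) := by
            rw [mul_pow, hC₃, ← pow_mul ((j : ℝ) + 1), mul_comm (2 + n) 20]
        _ ≤ C * ((j : ℝ) + 1) ^ (20 * (2 + n)) :=
            mul_le_mul_of_nonneg_right hC3 (by positivity)
        _ ≤ y := hjQ.trans hNy
    have h2 : 0 ≤ C₂ * (n : ℝ) ^ n * ((j : ℝ) + 1) ^ (2 + n) := by positivity
    have h3 := Real.rpow_le_rpow (by positivity) h1 (by norm_num : (0 : ℝ) ≤ 1 / 20)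
    rw [← Real.rpow_natCast, ← Real.rpow_mul h2] at h3
    norm_num at h3
    exact h3
  set ρ : ℝ := C₂ * ((j : ℝ) + 1) ^ 2 * (y : ℝ) ^ (-(1 / 20) : ℝ) with hρ
  have hρ0 : 0 < ρ := by positivity
  have hρle : ρ ≤ (1 / (((j : ℝ) + 1) * n)) ^ n := by
    have h1 : (y : ℝ) ^ (-(1 / 20) : ℝ) = ((y : ℝ) ^ (1 / 20 : ℝ))⁻¹ := Real.rpow_neg hy0.le _
    rw [hρ, h1, ← div_eq_mul_inv, div_le_iff₀ (by positivity)]
    have h2 : (1 / (((j : ℝ) + 1) * n)) ^ n * (C₂ * (n : ℝ) ^ n * ((j : ℝ) + 1) ^ (2 + n)) ≤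
        (1 / (((j : ℝ) + 1) * n)) ^ n * (y : ℝ) ^ (1 / 20 : ℝ) :=
      mul_le_mul_of_nonneg_left hy20 (by positivity)
    refine le_trans (le_of_eq ?_) h2
    rw [div_pow, one_pow, mul_pow, pow_add]
    field_simp
  set η : ℝ := ρ ^ (1 / (n : ℝ)) with hη
  have hη0 : 0 < η := Real.rpow_pos_of_pos hρ0 _
  have hηn : η ^ n = ρ := by
    rw [hη, ← Real.rpow_natCast, ← Real.rpow_mul hρ0.le, one_div_mul_cancel (by positivity),
      Real.rpow_one]
  have hηle : η ≤ 1 / (((j : ℝ) + 1) * n) := by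
    have h1 : η ^ n ≤ (1 / (((j : ℝ) + 1) * n)) ^ n := by rw [hηn]; exact hρle
    exact (pow_le_pow_iff_left₀ hη0.le (by positivity) (by omega)).1 h1
  have hη1 : η ≤ 1 := by
    refine hηle.trans ?_
    rw [div_le_one (by positivity)]
    nlinarith
  have hηj : (j : ℝ) * (n * η) ≤ 1 := by
    have h1 : (((j : ℝ) + 1) * n) * η ≤ 1 := by
      rw [le_div_iff₀ (by positivity)] at hηle
      linarith
    have h2 : (j : ℝ) * (n * η) ≤ (((j : ℝ) + 1) * n) * η := by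
      have : 0 ≤ n * η := by positivity
      nlinarith
    linarith
  -- one colouring
  have hone : ∀ u : Fin j → R → Bool × Bool, ∃ U : Finset (R → Bool × Bool),
      (∀ a ∈ U, ∀ b ∈ U, Even (nn a b + nn b a)) ∧
      |∑ x ∈ PQ (Fin j) Q, tm χ u x| ≤ N ^ j * ∏ i, if u i ∈ U then 1 else η := by
    intro u
    obtain ⟨s, U, hU, hcard, hs⟩ := exists_linked u
    refine ⟨U, hU, ?_⟩
    have hprod : ∏ i, (if u i ∈ U then 1 else η) = η ^ (univ.filter (fun i => u i ∉ U)).card := by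
      rw [prod_ite, prod_const_one, one_mul, prod_const]
    rw [hprod]
    rcases Nat.eq_zero_or_pos s with h0 | h1
    · rw [h0, mul_zero, Nat.le_zero] at hcard
      rw [hcard, pow_zero, mul_one]
      refine (abs_sum_le_sum_abs _ _).trans ((sum_le_sum fun x _ => tm_abs hχ u x).trans ?_)
      rw [sum_const, nsmul_eq_mul, mul_one, card_PQ, Fintype.card_fin]
    · obtain ⟨hsj, A, B, v, w, hA, hB, hAB, huA, huB, hvw, hwv⟩ := hs h1
      rw [Fintype.card_fin] at hsj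
      have h2 := hT (Fin j) R Q y A B s hQ hne hy1 h1 hA hB hAB χ u v w hχ huA huB hvw hwv
      rw [Fintype.card_fin] at h2
      refine h2.trans (mul_le_mul_of_nonneg_left ?_ (by positivity))
      have h3 := hnum s y N h1 hy1 hyQ
      refine h3.trans ?_
      have h4 : C₂ * (s : ℝ) ^ 2 * (y : ℝ) ^ (-(1 / 20) : ℝ) ≤ ρ := by
        refine mul_le_mul_of_nonneg_right (mul_le_mul_of_nonneg_left ?_ (by linarith))
          (by positivity)
        have : (s : ℝ) ≤ j := by exact_mod_cast hsj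
        exact pow_le_pow_left₀ (Nat.cast_nonneg s) (by linarith) 2
      calc (C₂ * (s : ℝ) ^ 2 * (y : ℝ) ^ (-(1 / 20) : ℝ)) ^ s ≤ ρ ^ s :=
            pow_le_pow_left₀ (by positivity) h4 s
        _ = η ^ (n * s) := by rw [← hηn, pow_mul]
        _ ≤ _ := pow_le_pow_of_le_one hη0.le hη1 hcard
  -- the sum
  set UU : Finset (Finset (R → Bool × Bool)) := univ.filter (fun U =>
    ∀ a ∈ U, ∀ b ∈ U, Even (nn a b + nn b a)) with hUU
  have hfU : ∀ U ∈ UU, ∑ v, (if v ∈ U then (1 : ℝ) else η) ≤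
      2 ^ Fintype.card R * (1 + n * η) := by
    intro U hU
    have h1 := card_unlinked U (mem_filter.1 hU).2
    have h2 : ∑ v, (if v ∈ U then (1 : ℝ) else η) ≤ (U.card : ℝ) + n * η := by
      rw [sum_ite, sum_const, sum_const, nsmul_eq_mul, nsmul_eq_mul, mul_one]
      have h3 : (univ.filter (fun v => v ∈ U)).card = U.card := by
        congr 1
        ext v
        simp
      have h4 : ((univ.filter (fun v => v ∉ U)).card : ℝ) ≤ n := by
        rw [hn, ← card_univ]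
        exact_mod_cast card_le_card (filter_subset _ _)
      rw [h3]
      exact add_le_add le_rfl (mul_le_mul_of_nonneg_right h4 hη0.le)
    have h3 : (U.card : ℝ) ≤ 2 ^ Fintype.card R := by exact_mod_cast h1
    have h4 : (1 : ℝ) ≤ 2 ^ Fintype.card R := one_le_pow₀ (by norm_num)
    have h5 : 0 ≤ n * η := by positivity
    nlinarith
  have hexp : (1 + n * η) ^ j ≤ 3 := by
    calc (1 + n * η) ^ j ≤ (Real.exp (n * η)) ^ j :=
          pow_le_pow_left₀ (by positivity) (by linarith [Real.add_one_le_exp (n * η)]) j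
      _ = Real.exp (j * (n * η)) := (Real.exp_nat_mul _ _).symm
      _ ≤ Real.exp 1 := Real.exp_le_exp.2 hηj
      _ ≤ 3 := by linarith [Real.exp_one_lt_d9]
  calc ∑ u : Fin j → R → Bool × Bool, |∑ x ∈ PQ (Fin j) Q, tm χ u x|
      ≤ ∑ u : Fin j → R → Bool × Bool, ∑ U ∈ UU, N ^ j * ∏ i, (if u i ∈ U then 1 else η) := by
        refine sum_le_sum fun u _ => ?_
        obtain ⟨U, hU, h1⟩ := hone u
        refine h1.trans (single_le_sum (f := fun U => N ^ j * ∏ i, (if u i ∈ U then 1 else η))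
          (fun U _ => ?_) (mem_filter.2 ⟨mem_univ U, hU⟩))
        refine mul_nonneg (by positivity) (prod_nonneg fun i _ => ?_)
        split_ifs <;> positivity
    _ = ∑ U ∈ UU, N ^ j * (∑ v, (if v ∈ U then (1 : ℝ) else η)) ^ j := by
        rw [sum_comm]
        refine sum_congr rfl fun U _ => ?_
        rw [← mul_sum]
        congr 1
        have h1 := sum_colour (ι := Fin j) (fun v : R → Bool × Bool => if v ∈ U then (1 : ℝ) else η)
        rw [Fintype.card_fin] at h1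
        rw [← h1]
    _ ≤ ∑ U ∈ UU, N ^ j * ((2 ^ Fintype.card R) ^ j * 3) := by
        refine sum_le_sum fun U hU => mul_le_mul_of_nonneg_left ?_ (by positivity)
        calc (∑ v, (if v ∈ U then (1 : ℝ) else η)) ^ j ≤ (2 ^ Fintype.card R * (1 + n * η)) ^ j := by
              refine pow_le_pow_left₀ (sum_nonneg fun v _ => ?_) (hfU U hU) j
              split_ifs <;> positivity
          _ = (2 ^ Fintype.card R) ^ j * (1 + n * η) ^ j := mul_pow _ _ _
          _ ≤ _ := mul_le_mul_of_nonneg_left hexp (by positivity)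
    _ = (UU.card : ℝ) * (3 * (2 ^ Fintype.card R) ^ j * N ^ j) := by
        rw [sum_const, nsmul_eq_mul]
        ring
    _ ≤ 2 ^ n * (3 * (2 ^ Fintype.card R) ^ j * N ^ j) := by
        refine mul_le_mul_of_nonneg_right ?_ (by positivity)
        have h1 : UU.card ≤ (univ : Finset (Finset (R → Bool × Bool))).card :=
          card_le_card (filter_subset _ _)
        rw [card_univ, Fintype.card_finset] at h1
        exact_mod_cast h1
    _ = (3 * 2 ^ n) * ((2 ^ Fintype.card R) ^ j * N ^ j) := by ring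
    _ ≤ C * ((2 ^ Fintype.card R) ^ j * N ^ j) := mul_le_mul_of_nonneg_right hC4 (by positivity)
    _ = _ := by ring

end Pool.Agent.TH715.RS
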