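import Mathlib
import Pool.Agent.TH715.RS.Fact
import Pool.Agent.W262.RK.Defs2

/-!
# Expansion of the count of the local conditions into symbols
-/

set_option autoImplicit false

namespace Pool.Agent.TH715.RS

open Finset

open Pool.Agent.W262.RK (Jr NL LL dv sgn sg0)

/-- the sign of a Boolean -/
def sb (b : Bool) : ℝ := if b then -1 else 1

lemma sb_xor (a b : Bool) : sb (xor a b) = sb a * sb b := by
  cases a <;> cases b <;> simp [sb]

lemma sb_abs (a : Bool) : |sb a| = 1 := by
  cases a <;> simp [sb]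

lemma sb_jr {p : ℕ} {a : ℤ} (h : jacobiSym a p = 1 ∨ jacobiSym a p = -1) :
    sb (sg0 p a) = Jr a p := by
  unfold sb sg0 Jr
  rcases h with h | h <;> rw [h] <;> norm_num

/-- the constants in the first condition -/
def E1 (κ : Fin 3 → ℤ) (p : ℕ) (v w : Bool) : Bool :=
  xor (v && !w && sg0 p (κ 0)) (xor (!v && w && sg0 p (κ 0 * κ 1)) (v && w && sg0 p (κ 1)))

/-- the constants in the second condition -/
def E2 (κ : Fin 3 → ℤ) (p : ℕ) (v w : Bool) : Bool :=
  xor (v && !w && sg0 p (κ 0 * κ 2)) (xor (!v && w && sg0 p (-κ 0)) (v && w && sg0 p (-κ 2)))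

lemma LL_iff (κ : Fin 3 → ℤ) (neg : Bool) (p : ℕ) (v w h g : Bool) :
    LL 3 κ neg p v w h g ↔ h = xor (v && neg) (E1 κ p v w) ∧ g = xor (w && neg) (E2 κ p v w) := by
  unfold LL E1 E2
  rw [if_neg (by decide), if_neg (by decide), if_neg (by decide)]

lemma ind_four (h g X Y : Bool) : (if h = X ∧ g = Y then (1 : ℝ) else 0) =
    1 / 4 * ∑ ψ : Bool × Bool, (if ψ.1 then sb h * sb X else 1) *
      (if ψ.2 then sb g * sb Y else 1) := by
  rw [Fintype.sum_prod_type, Fintype.sum_bool, Fintype.sum_bool, Fintype.sum_bool]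
  cases h <;> cases g <;> cases X <;> cases Y <;> simp [sb] <;> norm_num

/-- the function of one prime -/
noncomputable def ch1 (κ : Fin 3 → ℤ) (v : Bool → Bool × Bool) (p : ℕ) : ℝ :=
  (if (v false).2 then sb (E1 κ p (v false).1 (v true).1) else 1) *
    (if (v true).2 then sb (E2 κ p (v false).1 (v true).1) else 1)

lemma ch1_abs (κ : Fin 3 → ℤ) (v : Bool → Bool × Bool) (p : ℕ) : |ch1 κ v p| ≤ 1 := by
  unfold ch1
  rw [abs_mul]
  have h1 : |(if (v false).2 then sb (E1 κ p (v false).1 (v true).1) else 1)| ≤ 1 := by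
    split_ifs
    · exact (sb_abs _).le
    · simp
  have h2 : |(if (v true).2 then sb (E2 κ p (v false).1 (v true).1) else 1)| ≤ 1 := by
    split_ifs
    · exact (sb_abs _).le
    · simp
  calc _ ≤ (1 : ℝ) * 1 := mul_le_mul h1 h2 (abs_nonneg _) zero_le_one
    _ = 1 := by norm_num

section one

variable {j : ℕ} (x : Fin j → ℕ)

/-- the sign of the prime `x i` for the product -/
def ng (i : Fin j) : Bool := sg0 (x i) ((∏ l ∈ univ.filter (fun l => l ≠ i), x l : ℕ) : ℤ)

/-- the symbol of the product of the `x l`, `φ l`, `l ≠ i` -/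
def hh1 (φ : Fin j → Bool) (i : Fin j) : Bool :=
  sg0 (x i) ((∏ l ∈ univ.filter (fun l => l ≠ i ∧ φ l = true), x l : ℕ) : ℤ)

variable {x} (hx : Function.Injective x) (hp : ∀ i, (x i).Prime)

include hx hp

lemma jr_unit (S : Finset (Fin j)) (i : Fin j) (hi : i ∉ S) :
    jacobiSym ((∏ l ∈ S, x l : ℕ) : ℤ) (x i) = 1 ∨
      jacobiSym ((∏ l ∈ S, x l : ℕ) : ℤ) (x i) = -1 := by
  refine jacobiSym.eq_one_or_neg_one ?_
  rw [Int.gcd_natCast_natCast]
  refine Nat.Coprime.prod_left fun l hl => ?_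
  exact (Nat.coprime_primes (hp l) (hp i)).2 (hx.ne (fun h => hi (h ▸ hl)))

lemma sb_prod (S : Finset (Fin j)) (i : Fin j) (hi : i ∉ S) :
    sb (sg0 (x i) ((∏ l ∈ S, x l : ℕ) : ℤ)) = ∏ l ∈ S, Jr (x l) (x i) := by
  rw [sb_jr (jr_unit hx hp S i hi), jr_prod_left]

/-- one plane -/
lemma one_plane (φ ψ : Fin j → Bool) (i : Fin j) (e : Bool) :
    (if ψ i then sb (hh1 x φ i) * sb (xor (φ i && ng x i) e) else 1) =
      (if ψ i then sb e else 1) *
        ∏ l, Jr (x l) (x i) ^ (if e0 (φ l, ψ l) (φ i, ψ i) then 1 else 0) := by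
  classical
  by_cases hψ : ψ i = true
  swap
  · rw [if_neg hψ, if_neg hψ, one_mul]
    symm
    refine prod_eq_one fun l _ => ?_
    have : e0 (φ l, ψ l) (φ i, ψ i) = false := by
      unfold e0
      rw [Bool.not_eq_true] at hψ
      simp [hψ]
    rw [this]
    simp
  rw [if_pos hψ, if_pos hψ]
  have hJ : ∀ l, l ≠ i → Jr (x l) (x i) = 1 ∨ Jr (x l) (x i) = -1 := fun l hl =>
    jr_sq (hp l) (hp i) (hx.ne hl)
  have h1 : sb (hh1 x φ i) = ∏ l, if l ≠ i ∧ φ l = true then Jr (x l) (x i) else 1 := by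
    unfold hh1
    rw [sb_prod hx hp _ i (by simp), prod_filter]
  have h2 : sb (ng x i) = ∏ l, if l ≠ i then Jr (x l) (x i) else 1 := by
    unfold ng
    rw [sb_prod hx hp _ i (by simp), prod_filter]
  have h3 : sb (xor (φ i && ng x i) e) =
      (∏ l, if l ≠ i ∧ φ i = true then Jr (x l) (x i) else 1) * sb e := by
    rw [sb_xor]
    congr 1
    by_cases hφ : φ i = true
    · rw [hφ, Bool.true_and, h2]
      simp
    · rw [Bool.not_eq_true] at hφ
      rw [hφ]
      simp [sb]
  rw [h1, h3, ← mul_assoc, ← prod_mul_distrib, mul_comm]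
  congr 1
  refine prod_congr rfl fun l _ => ?_
  by_cases hl : l = i
  · subst hl
    rw [e0_self]
    simp
  · have h4 : e0 (φ l, ψ l) (φ i, ψ i) = xor (φ l) (φ i) := by
      unfold e0
      simp [hψ]
    rw [h4]
    rcases hJ l hl with h | h <;> rw [h] <;> cases φ l <;> cases φ i <;> simp [hl]

open Classical in
/-- the count in terms of colourings -/
lemma count_eq (κ : Fin 3 → ℤ) :
    ∑ φ : Fin j → Bool × Bool, (∏ i, if LL 3 κ (ng x i) (x i) (φ i).1 (φ i).2
      (hh1 x (fun l => (φ l).1) i) (hh1 x (fun l => (φ l).2) i) then (1 : ℝ) else 0) =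
      (1 / 4) ^ j * ∑ u : Fin j → Bool → Bool × Bool, tm (ch1 κ) u x := by
  classical
  have h1 : ∀ φ : Fin j → Bool × Bool, (∏ i, if LL 3 κ (ng x i) (x i) (φ i).1 (φ i).2
      (hh1 x (fun l => (φ l).1) i) (hh1 x (fun l => (φ l).2) i) then (1 : ℝ) else 0) =
      (1 / 4) ^ j * ∑ ψ : Fin j → Bool × Bool,
        tm (ch1 κ) (fun i r => if r then ((φ i).2, (ψ i).2) else ((φ i).1, (ψ i).1)) x := by
    intro φ
    have h2 : ∀ i, (if LL 3 κ (ng x i) (x i) (φ i).1 (φ i).2
        (hh1 x (fun l => (φ l).1) i) (hh1 x (fun l => (φ l).2) i) then (1 : ℝ) else 0) =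
        1 / 4 * ∑ ψ : Bool × Bool, (if ψ.1 then sb (hh1 x (fun l => (φ l).1) i) *
          sb (xor ((φ i).1 && ng x i) (E1 κ (x i) (φ i).1 (φ i).2)) else 1) *
          (if ψ.2 then sb (hh1 x (fun l => (φ l).2) i) *
          sb (xor ((φ i).2 && ng x i) (E2 κ (x i) (φ i).1 (φ i).2)) else 1) := by
      intro i
      rw [← ind_four]
      refine if_congr (LL_iff _ _ _ _ _ _ _) rfl rfl
    rw [prod_congr rfl fun i _ => h2 i, prod_mul_distrib, prod_const, card_univ, Fintype.card_fin]
    congr 1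
    have h3 := Finset.prod_univ_sum (fun _ : Fin j => (univ : Finset (Bool × Bool)))
      (fun i ψ => (if ψ.1 then sb (hh1 x (fun l => (φ l).1) i) *
          sb (xor ((φ i).1 && ng x i) (E1 κ (x i) (φ i).1 (φ i).2)) else 1) *
          (if ψ.2 then sb (hh1 x (fun l => (φ l).2) i) *
          sb (xor ((φ i).2 && ng x i) (E2 κ (x i) (φ i).1 (φ i).2)) else 1))
    rw [Fintype.piFinset_univ] at h3
    rw [h3]
    refine sum_congr rfl fun ψ _ => ?_
    have h4 : ∀ i, (if (ψ i).1 then sb (hh1 x (fun l => (φ l).1) i) *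
          sb (xor ((φ i).1 && ng x i) (E1 κ (x i) (φ i).1 (φ i).2)) else 1) *
          (if (ψ i).2 then sb (hh1 x (fun l => (φ l).2) i) *
          sb (xor ((φ i).2 && ng x i) (E2 κ (x i) (φ i).1 (φ i).2)) else 1) =
        ch1 κ (fun r => if r then ((φ i).2, (ψ i).2) else ((φ i).1, (ψ i).1)) (x i) *
        ∏ l, Jr (x l) (x i) ^ nn
          (fun r : Bool => if r then ((φ l).2, (ψ l).2) else ((φ l).1, (ψ l).1))
          (fun r : Bool => if r then ((φ i).2, (ψ i).2) else ((φ i).1, (ψ i).1)) := by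
      intro i
      rw [one_plane hx hp (fun l => (φ l).1) (fun l => (ψ l).1) i,
        one_plane hx hp (fun l => (φ l).2) (fun l => (ψ l).2) i]
      have h5 : ∀ l, nn
          (fun r : Bool => if r then ((φ l).2, (ψ l).2) else ((φ l).1, (ψ l).1))
          (fun r : Bool => if r then ((φ i).2, (ψ i).2) else ((φ i).1, (ψ i).1)) =
          (if e0 ((φ l).1, (ψ l).1) ((φ i).1, (ψ i).1) then 1 else 0) +
          (if e0 ((φ l).2, (ψ l).2) ((φ i).2, (ψ i).2) then 1 else 0) := by
        intro l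
        unfold nn
        rw [card_filter, Fintype.sum_bool]
        simp only [if_true, Bool.false_eq_true, if_false]
        rw [add_comm]
      have h6 : ∏ l, Jr (x l) (x i) ^ nn
          (fun r : Bool => if r then ((φ l).2, (ψ l).2) else ((φ l).1, (ψ l).1))
          (fun r : Bool => if r then ((φ i).2, (ψ i).2) else ((φ i).1, (ψ i).1)) =
          (∏ l, Jr (x l) (x i) ^ (if e0 ((φ l).1, (ψ l).1) ((φ i).1, (ψ i).1) then 1 else 0)) *
          ∏ l, Jr (x l) (x i) ^ (if e0 ((φ l).2, (ψ l).2) ((φ i).2, (ψ i).2) then 1 else 0) := by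
        rw [← prod_mul_distrib]
        refine prod_congr rfl fun l _ => ?_
        rw [h5 l, pow_add]
      rw [h6]
      unfold ch1
      simp only [if_true, Bool.false_eq_true, if_false]
      ring
    rw [prod_congr rfl fun i _ => h4 i, prod_mul_distrib]
    unfold tm
    rw [if_pos hx, one_mul, prod_comm]
  rw [sum_congr rfl fun φ _ => h1 φ, ← mul_sum]
  congr 1
  rw [← Fintype.sum_prod_type']
  refine Fintype.sum_equiv
    { toFun := fun p : (Fin j → Bool × Bool) × (Fin j → Bool × Bool) =>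
        fun i r => if r then ((p.1 i).2, (p.2 i).2) else ((p.1 i).1, (p.2 i).1)
      invFun := fun u => (fun i => ((u i false).1, (u i true).1),
        fun i => ((u i false).2, (u i true).2))
      left_inv := fun p => by
        ext i <;> simp
      right_inv := fun u => by
        funext i r
        cases r <;> simp } _ _ fun p => rfl

end one

end Pool.Agent.TH715.RS
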