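import Mathlib
import Pool.Agent.TH715.RS.Exp
import Pool.Agent.TH715.RS.Colour

/-!
# The moments of the number of solutions of the local conditions
-/

set_option autoImplicit false

namespace Pool.Agent.TH715.RS

open Finset

open Pool.Agent.W262.RK (Jr NL LL dv sgn sg0)

/-- the local conditions at the primes dividing `m`, for the twist by `m` -/
def LT (κ : Fin 3 → ℤ) (m : ℕ) (p : ℕ) (v w h g : Bool) : Prop :=
  LL 3 κ (sg0 p ((m / p : ℕ) : ℤ)) p v w h g

section nl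

variable {j : ℕ} {x : Fin j → ℕ} (hx : Function.Injective x) (hp : ∀ i, (x i).Prime)

include hx hp

lemma sqf_x (S : Finset (Fin j)) : Squarefree (∏ l ∈ S, x l) := by
  classical
  have h1 : ∏ i ∈ S, x i = ∏ p ∈ S.image x, p :=
    (prod_image (f := fun p : ℕ => p) (hx.injOn)).symm
  rw [h1]
  refine sqf_prod _ fun p hp' => ?_
  obtain ⟨i, _, rfl⟩ := mem_image.1 hp'
  exact hp i

lemma dvd_x (S : Finset (Fin j)) (i : Fin j) : x i ∣ ∏ l ∈ S, x l ↔ i ∈ S := by
  constructor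
  · intro h
    obtain ⟨l, hl, h1⟩ := ((hp i).prime.dvd_finsetProd_iff _).1 h
    have h2 : x i = x l := (Nat.prime_dvd_prime_iff_eq (hp i) (hp l)).1 h1
    rwa [hx h2]
  · intro h
    exact dvd_prod_of_mem _ h

lemma eq_prod {d : ℕ} (hd : d ∣ ∏ i, x i) :
    d = ∏ l ∈ univ.filter (fun l => x l ∣ d), x l := by
  classical
  have hsq : Squarefree d := (sqf_x hx hp univ).squarefree_of_dvd hd
  have h1 : d.primeFactors = (univ.filter (fun l => x l ∣ d)).image x := by
    ext p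
    rw [Nat.mem_primeFactors, mem_image]
    constructor
    · rintro ⟨h1, h2, _⟩
      obtain ⟨l, _, h3⟩ := (h1.prime.dvd_finsetProd_iff _).1 (h2.trans hd)
      have h4 : p = x l := (Nat.prime_dvd_prime_iff_eq h1 (hp l)).1 h3
      exact ⟨l, mem_filter.2 ⟨mem_univ _, h4 ▸ h2⟩, h4.symm⟩
    · rintro ⟨l, hl, rfl⟩
      exact ⟨hp l, (mem_filter.1 hl).2, hsq.ne_zero⟩
  calc d = ∏ p ∈ d.primeFactors, p := (Nat.prod_primeFactors_of_squarefree hsq).symm
    _ = _ := by rw [h1, prod_image hx.injOn]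

lemma sgn_x {d : ℕ} (hd : d ∣ ∏ i, x i) (i : Fin j) :
    sgn (x i) (d : ℤ) = hh1 x (fun l => decide (x l ∣ d)) i := by
  classical
  unfold sgn hh1
  congr 1
  have h0 : univ.filter (fun l => l ≠ i ∧ (decide (x l ∣ d)) = true) =
      (univ.filter (fun l => x l ∣ d)).erase i := by
    ext l
    simp only [mem_filter, mem_univ, true_and, mem_erase, decide_eq_true_eq]
  rw [h0, Int.gcd_natCast_natCast]
  by_cases hi : x i ∣ d
  · rw [Nat.gcd_eq_right hi]
    have h1 : d = x i * ∏ l ∈ (univ.filter (fun l => x l ∣ d)).erase i, x l := by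
      rw [mul_prod_erase (univ.filter (fun l => x l ∣ d)) x (mem_filter.2 ⟨mem_univ _, hi⟩)]
      exact eq_prod hx hp hd
    have h2 : (x i : ℤ) ≠ 0 := by exact_mod_cast (hp i).ne_zero
    have h3 : (d : ℤ) = (x i : ℤ) *
        ((∏ l ∈ (univ.filter (fun l => x l ∣ d)).erase i, x l : ℕ) : ℤ) := by
      exact_mod_cast h1
    generalize ((∏ l ∈ (univ.filter (fun l => x l ∣ d)).erase i, x l : ℕ) : ℤ) = P at h3 ⊢
    rw [h3, Int.mul_ediv_cancel_left _ h2]
  · have h1 : Nat.gcd d (x i) = 1 := by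
      rw [Nat.gcd_comm]
      exact (Nat.Prime.coprime_iff_not_dvd (hp i)).2 hi
    have h2 : i ∉ univ.filter (fun l => x l ∣ d) := fun h => hi (mem_filter.1 h).2
    rw [h1, erase_eq_of_notMem h2, ← eq_prod hx hp hd]
    simp

lemma ng_x (i : Fin j) : sg0 (x i) (((∏ l, x l) / x i : ℕ) : ℤ) = ng x i := by
  classical
  unfold ng
  congr 2
  have h0 : univ.filter (fun l => l ≠ i) = univ.erase i := by
    ext l
    simp
  rw [h0, ← mul_prod_erase univ x (mem_univ i), Nat.mul_div_cancel_left _ (hp i).pos]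

/-- the count is bounded by the sum over the colourings -/
lemma nl_le (κ : Fin 3 → ℤ) : (NL (∏ i, x i) (LT κ (∏ i, x i)) : ℝ) ≤
    (1 / 4) ^ j * ∑ u : Fin j → Bool → Bool × Bool, tm (ch1 κ) u x := by
  classical
  rw [← count_eq hx hp κ]
  set m : ℕ := ∏ i, x i with hm
  set T : Finset (Fin j → Bool × Bool) := univ.filter (fun φ => ∀ i,
    LL 3 κ (ng x i) (x i) (φ i).1 (φ i).2 (hh1 x (fun l => (φ l).1) i)
      (hh1 x (fun l => (φ l).2) i)) with hT
  have h1 : ∑ φ : Fin j → Bool × Bool, (∏ i, if LL 3 κ (ng x i) (x i) (φ i).1 (φ i).2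
      (hh1 x (fun l => (φ l).1) i) (hh1 x (fun l => (φ l).2) i) then (1 : ℝ) else 0) = T.card := by
    rw [hT, card_filter]
    push_cast
    refine sum_congr rfl fun φ _ => ?_
    by_cases h : ∀ i, LL 3 κ (ng x i) (x i) (φ i).1 (φ i).2 (hh1 x (fun l => (φ l).1) i)
      (hh1 x (fun l => (φ l).2) i)
    · rw [if_pos h]
      exact prod_eq_one fun i _ => if_pos (h i)
    · rw [if_neg h]
      push Not at h
      obtain ⟨i, hi⟩ := h
      exact prod_eq_zero (mem_univ i) (if_neg hi)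
  rw [h1]
  unfold NL
  have h2 : ((m.divisors ×ˢ m.divisors).filter (fun d : ℕ × ℕ => ∀ p ∈ m.primeFactors,
      LT κ m p (dv p d.1) (dv p d.2) (sgn p d.1) (sgn p d.2))).card ≤ T.card := by
    refine card_le_card_of_injOn (fun d i => (decide (x i ∣ d.1), decide (x i ∣ d.2))) ?_ ?_
    · intro d hd
      rw [mem_coe, mem_filter, mem_product] at hd
      obtain ⟨⟨hd1, hd2⟩, hd3⟩ := hd
      have hd1' : d.1 ∣ ∏ i, x i := Nat.dvd_of_mem_divisors hd1
      have hd2' : d.2 ∣ ∏ i, x i := Nat.dvd_of_mem_divisors hd2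
      rw [mem_coe, hT, mem_filter]
      refine ⟨mem_univ _, fun i => ?_⟩
      have hi : x i ∈ m.primeFactors := by
        rw [Nat.mem_primeFactors]
        exact ⟨hp i, dvd_prod_of_mem _ (mem_univ i), (sqf_x hx hp univ).ne_zero⟩
      have h3 := hd3 (x i) hi
      unfold LT at h3
      rw [ng_x hx hp i, sgn_x hx hp hd1' i, sgn_x hx hp hd2' i] at h3
      have h4 : ∀ d : ℕ, dv (x i) (d : ℤ) = decide (x i ∣ d) := by
        intro d
        unfold dv
        congr 1
        rw [Int.natCast_dvd_natCast]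
      rw [h4, h4] at h3
      exact h3
    · intro d hd d' hd' hdd
      rw [mem_coe, mem_filter, mem_product] at hd hd'
      have key : ∀ a b : ℕ, a ∣ ∏ i, x i → b ∣ ∏ i, x i →
          (∀ i, decide (x i ∣ a) = decide (x i ∣ b)) → a = b := by
        intro a b ha hb hab
        rw [eq_prod hx hp ha, eq_prod hx hp hb]
        congr 1
        ext l
        rw [mem_filter, mem_filter]
        have := hab l
        rw [decide_eq_decide] at this
        rw [this]
      have hc : ∀ i, ((decide (x i ∣ d.1), decide (x i ∣ d.2)) : Bool × Bool) =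
          (decide (x i ∣ d'.1), decide (x i ∣ d'.2)) := fun i => congrFun hdd i
      refine Prod.ext ?_ ?_
      · exact key _ _ (Nat.dvd_of_mem_divisors hd.1.1) (Nat.dvd_of_mem_divisors hd'.1.1)
          fun i => (Prod.ext_iff.1 (hc i)).1
      · exact key _ _ (Nat.dvd_of_mem_divisors hd.1.2) (Nat.dvd_of_mem_divisors hd'.1.2)
          fun i => (Prod.ext_iff.1 (hc i)).2
  have h3 : (T.card : ℝ) = ((T.card : ℕ) : ℝ) := rfl
  exact_mod_cast h2

end nl

/-- the function of one prime, for the `k`-th power -/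
noncomputable def chk {k : ℕ} (χ : (Bool → Bool × Bool) → ℕ → ℝ)
    (v : Fin k × Bool → Bool × Bool) (p : ℕ) : ℝ := ∏ r : Fin k, χ (fun b => v (r, b)) p

lemma pow_tm {k j : ℕ} (χ : (Bool → Bool × Bool) → ℕ → ℝ) {x : Fin j → ℕ}
    (hx : Function.Injective x) :
    (∑ u : Fin j → Bool → Bool × Bool, tm χ u x) ^ k =
      ∑ u : Fin j → Fin k × Bool → Bool × Bool, tm (chk χ) u x := by
  classical
  have h1 := Finset.prod_univ_sum (fun _ : Fin k => (univ : Finset (Fin j → Bool → Bool × Bool)))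
    (fun _ u => tm χ u x)
  rw [Fintype.piFinset_univ, prod_const, card_univ, Fintype.card_fin] at h1
  rw [h1]
  refine Fintype.sum_equiv
    { toFun := fun w : Fin k → Fin j → Bool → Bool × Bool =>
        fun (i : Fin j) (rb : Fin k × Bool) => w rb.1 i rb.2
      invFun := fun u r i b => u i (r, b)
      left_inv := fun w => rfl
      right_inv := fun u => rfl } _ _ fun w => ?_
  change ∏ r, tm χ (w r) x = tm (chk χ) (fun i rb => w rb.1 i rb.2) x
  unfold tm
  rw [if_pos hx, one_mul]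
  have h2 : ∀ r : Fin k, (1 : ℝ) * (∏ i, χ (w r i) (x i)) *
      ∏ i, ∏ l, Jr (x i) (x l) ^ nn (w r i) (w r l) =
      (∏ i, χ (w r i) (x i)) * ∏ i, ∏ l, Jr (x i) (x l) ^ nn (w r i) (w r l) := by
    intro r
    rw [one_mul]
  rw [prod_congr rfl fun r _ => h2 r, prod_mul_distrib]
  congr 1
  · rw [prod_comm]
    rfl
  · rw [prod_comm]
    refine prod_congr rfl fun i _ => ?_
    rw [prod_comm]
    refine prod_congr rfl fun l _ => ?_
    rw [prod_pow_eq_pow_sum]
    congr 1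
    unfold nn
    simp only [card_filter]
    rw [Fintype.sum_prod_type]

/-- **the moments of the count over the tuples of primes** -/
theorem avg_nl (k : ℕ) : ∃ (C : ℝ) (D : ℕ), 1 ≤ C ∧
    ∀ (κ : Fin 3 → ℤ) (j y : ℕ) (Q : Finset ℕ), (∀ q ∈ Q, q.Prime ∧ q ≠ 2 ∧ q ≤ y) →
      (y : ℝ) ^ (19 / 20 : ℝ) ≤ Q.card → C * ((j : ℝ) + 1) ^ D ≤ Q.card →
        ∑ x ∈ (PQ (Fin j) Q).filter Function.Injective,
          (NL (∏ i, x i) (LT κ (∏ i, x i)) : ℝ) ^ k ≤ C * (Q.card : ℝ) ^ j := by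
  classical
  obtain ⟨C, D, hC, h⟩ := sum_tm (Fin k × Bool)
  refine ⟨C, D, hC, ?_⟩
  intro κ j y Q hQ hyQ hjQ
  have h1 : ∀ x ∈ (PQ (Fin j) Q).filter Function.Injective,
      (NL (∏ i, x i) (LT κ (∏ i, x i)) : ℝ) ^ k ≤
        (1 / 4) ^ (j * k) * ∑ u : Fin j → Fin k × Bool → Bool × Bool, tm (chk (ch1 κ)) u x := by
    intro x hx
    obtain ⟨hx1, hx2⟩ := mem_filter.1 hx
    have h2 := nl_le hx2 (fun i => (hQ _ (Fintype.mem_piFinset.1 hx1 i)).1) κ
    calc (NL (∏ i, x i) (LT κ (∏ i, x i)) : ℝ) ^ k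
        ≤ ((1 / 4) ^ j * ∑ u : Fin j → Bool → Bool × Bool, tm (ch1 κ) u x) ^ k :=
          pow_le_pow_left₀ (Nat.cast_nonneg _) h2 k
      _ = _ := by rw [mul_pow, ← pow_mul, pow_tm (ch1 κ) hx2]
  refine (sum_le_sum h1).trans ?_
  rw [← mul_sum, sum_comm]
  have h2 : ∀ u : Fin j → Fin k × Bool → Bool × Bool,
      ∑ x ∈ (PQ (Fin j) Q).filter Function.Injective, tm (chk (ch1 κ)) u x =
        ∑ x ∈ PQ (Fin j) Q, tm (chk (ch1 κ)) u x := by
    intro u
    rw [sum_filter]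
    refine sum_congr rfl fun x _ => ?_
    by_cases hx : Function.Injective x
    · rw [if_pos hx]
    · rw [if_neg hx]
      unfold tm
      rw [if_neg hx]
      ring
  rw [sum_congr rfl fun u _ => h2 u]
  have h3 := h j y Q hQ hyQ hjQ (chk (ch1 κ)) (fun v p => by
    unfold chk
    exact prod_abs_le _ _ fun r _ => ch1_abs κ _ p)
  have h4 : ∑ u : Fin j → Fin k × Bool → Bool × Bool, ∑ x ∈ PQ (Fin j) Q, tm (chk (ch1 κ)) u x ≤
      ∑ u : Fin j → Fin k × Bool → Bool × Bool, |∑ x ∈ PQ (Fin j) Q, tm (chk (ch1 κ)) u x| :=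
    sum_le_sum fun u _ => le_abs_self _
  have h5 : Fintype.card (Fin k × Bool) = 2 * k := by
    rw [Fintype.card_prod, Fintype.card_fin, Fintype.card_bool, mul_comm]
  rw [h5] at h3
  calc (1 / 4 : ℝ) ^ (j * k) *
        ∑ u : Fin j → Fin k × Bool → Bool × Bool, ∑ x ∈ PQ (Fin j) Q, tm (chk (ch1 κ)) u x
      ≤ (1 / 4 : ℝ) ^ (j * k) * (C * ((2 : ℝ) ^ (2 * k)) ^ j * (Q.card : ℝ) ^ j) :=
        mul_le_mul_of_nonneg_left (h4.trans h3) (by positivity)
    _ = ((1 / 4 : ℝ) ^ (j * k) * ((2 : ℝ) ^ (2 * k)) ^ j) * (C * (Q.card : ℝ) ^ j) := by ring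
    _ = C * (Q.card : ℝ) ^ j := by
        have h6 : (1 / 4 : ℝ) ^ (j * k) * ((2 : ℝ) ^ (2 * k)) ^ j = 1 := by
          rw [pow_mul (2 : ℝ) 2 k, ← pow_mul, mul_comm k j, ← mul_pow]
          norm_num
        rw [h6, one_mul]

end Pool.Agent.TH715.RS
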