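import Mathlib
import Pool.Agent.TH715.RU.Comb
import Pool.Agent.TH715.RS.Cnt

/-!
# From tuples of primes to sets of primes
-/

set_option autoImplicit false

namespace Pool.Agent.TH715.RS

open Finset

/-- from tuples to subsets -/
lemma subsets_le (Q : Finset ℕ) (j : ℕ) (G : Finset ℕ → ℝ) (hG : ∀ T, 0 ≤ G T) :
    (j.factorial : ℝ) * ∑ T ∈ Q.powersetCard j, G T ≤
      ∑ x ∈ (PQ (Fin j) Q).filter Function.Injective, G (univ.image x) := by
  classical
  have hmaps : ∀ x ∈ (PQ (Fin j) Q).filter Function.Injective,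
      univ.image x ∈ Q.powersetCard j := by
    intro x hx
    obtain ⟨h1, h2⟩ := mem_filter.1 hx
    rw [mem_powersetCard]
    constructor
    · intro q hq
      obtain ⟨i, _, rfl⟩ := mem_image.1 hq
      exact Fintype.mem_piFinset.1 h1 i
    · rw [card_image_of_injective _ h2, card_univ, Fintype.card_fin]
  rw [← sum_fiberwise_of_maps_to hmaps, mul_sum]
  refine sum_le_sum fun T hT => ?_
  obtain ⟨hTQ, hTj⟩ := mem_powersetCard.1 hT
  have h1 : ∑ x ∈ ((PQ (Fin j) Q).filter Function.Injective).filter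
      (fun x => univ.image x = T), G (univ.image x) =
      ((((PQ (Fin j) Q).filter Function.Injective).filter
        (fun x => univ.image x = T)).card : ℝ) * G T := by
    rw [sum_congr rfl fun x hx => by rw [(mem_filter.1 hx).2], sum_const, nsmul_eq_mul]
  rw [h1]
  refine mul_le_mul_of_nonneg_right ?_ (hG T)
  have h2 : (univ : Finset (Equiv.Perm (Fin j))).card ≤
      (((PQ (Fin j) Q).filter Function.Injective).filter (fun x => univ.image x = T)).card := by
    refine card_le_card_of_injOn (fun σ i => T.orderEmbOfFin hTj (σ i)) ?_ ?_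
    · intro σ _
      rw [mem_coe, mem_filter, mem_filter, Fintype.mem_piFinset]
      refine ⟨⟨fun i => hTQ (orderEmbOfFin_mem T hTj _), ?_⟩, ?_⟩
      · intro i l hil
        exact σ.injective ((T.orderEmbOfFin hTj).injective hil)
      · ext q
        rw [mem_image]
        constructor
        · rintro ⟨i, _, rfl⟩
          exact orderEmbOfFin_mem T hTj _
        · intro hq
          have h3 : q ∈ Set.range (T.orderEmbOfFin hTj) := by
            rw [range_orderEmbOfFin]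
            exact hq
          obtain ⟨i, rfl⟩ := h3
          exact ⟨σ.symm i, mem_univ _, by simp⟩
    · intro σ _ τ _ h
      apply Equiv.ext
      intro i
      exact (T.orderEmbOfFin hTj).injective (congrFun h i)
  rw [card_univ, Fintype.card_perm, Fintype.card_fin] at h2
  exact_mod_cast h2

lemma pow_le_choose (N j : ℕ) (h : 2 * j ^ 2 ≤ N) :
    (N : ℝ) ^ j ≤ 2 * ((j.factorial : ℝ) * (N.choose j : ℝ)) := by
  rcases Nat.eq_zero_or_pos N with h0 | hN
  · have hj : j = 0 := by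
      rcases Nat.eq_zero_or_pos j with h1 | h1
      · exact h1
      · have : 0 < j ^ 2 := by positivity
        omega
    subst hj
    norm_num
  have hN0 : (0 : ℝ) < N := by exact_mod_cast hN
  have hjN : j ≤ N := by nlinarith
  have h1 : (N + 1 - j) ^ j ≤ N.descFactorial j := Nat.pow_sub_le_descFactorial N j
  rw [Nat.descFactorial_eq_factorial_mul_choose] at h1
  have h2 : (((N + 1 - j : ℕ) : ℝ)) ^ j ≤ (j.factorial : ℝ) * (N.choose j : ℝ) := by
    exact_mod_cast h1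
  have h3 : (N : ℝ) - j ≤ ((N + 1 - j : ℕ) : ℝ) := by
    have : (N : ℤ) - j ≤ ((N + 1 - j : ℕ) : ℤ) := by omega
    exact_mod_cast this
  have h4 : (0 : ℝ) ≤ (N : ℝ) - j := by
    have : (j : ℝ) ≤ N := by exact_mod_cast hjN
    linarith
  have h5 : (1 : ℝ) + j * (-((j : ℝ) / N)) ≤ (1 + -((j : ℝ) / N)) ^ j := by
    refine one_add_mul_le_pow ?_ j
    have : (j : ℝ) / N ≤ 1 := div_le_one_of_le₀ (by exact_mod_cast hjN) hN0.le
    linarith
  have h6 : (1 : ℝ) / 2 ≤ 1 + j * (-((j : ℝ) / N)) := by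
    have h7 : (j : ℝ) * (j / N) ≤ 1 / 2 := by
      rw [← mul_div_assoc, div_le_iff₀ hN0]
      have : (2 : ℝ) * (j : ℝ) ^ 2 ≤ N := by exact_mod_cast h
      nlinarith
    linarith
  have h7 : ((N : ℝ) - j) ^ j = (N : ℝ) ^ j * (1 + -((j : ℝ) / N)) ^ j := by
    rw [← mul_pow]
    congr 1
    field_simp
    ring
  have h8 : (N : ℝ) ^ j * (1 / 2) ≤ ((N : ℝ) - j) ^ j := by
    rw [h7]
    exact mul_le_mul_of_nonneg_left (h6.trans h5) (by positivity)
  have h9 := (pow_le_pow_left₀ h4 h3 j).trans h2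
  linarith

/-- from the sets `T` to the sets `P` -/
lemma avgP (Q : Finset ℕ) (m : ℕ) (F : Finset ℕ → ℝ) (hF : ∀ T, 0 ≤ F T) (C : ℝ)
    (h : ∀ j ≤ m, ∑ T ∈ Q.powersetCard j, F T ≤ C * (Q.card.choose j : ℝ)) :
    ∑ P ∈ Q.powersetCard m, ∑ T ∈ P.powerset, F T ≤ C * 2 ^ m * (Q.card.choose m : ℝ) := by
  classical
  have h1 : ∑ P ∈ Q.powersetCard m, ∑ T ∈ P.powerset, F T ≤
      ∑ j ∈ range (m + 1), ∑ T ∈ Q.powersetCard j,
        (((Q.card - j).choose (m - j) : ℕ) : ℝ) * F T := by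
    have h2 : ∀ P ∈ Q.powersetCard m, ∑ T ∈ P.powerset, F T =
        ∑ j ∈ range (m + 1), ∑ T ∈ P.powersetCard j, F T := by
      intro P hP
      rw [sum_powerset, (mem_powersetCard.1 hP).2]
    rw [sum_congr rfl h2, sum_comm]
    refine sum_le_sum fun j hj => ?_
    rw [sum_comm' (s' := fun T => (Q.powersetCard m).filter (fun P => T ⊆ P))
      (t' := Q.powersetCard j)]
    · refine sum_le_sum fun T hT => ?_
      rw [sum_const, nsmul_eq_mul]
      refine mul_le_mul_of_nonneg_right ?_ (hF T)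
      obtain ⟨hTQ, hTj⟩ := mem_powersetCard.1 hT
      have h3 := Pool.Agent.TH715.RU.card_containing Q T m hTQ (by
        rw [hTj]
        have := mem_range.1 hj
        omega)
      rw [hTj] at h3
      exact_mod_cast h3
    · intro P T
      rw [mem_powersetCard, mem_powersetCard, mem_filter, mem_powersetCard, mem_powersetCard]
      constructor
      · rintro ⟨⟨h1, h2⟩, h3, h4⟩
        exact ⟨⟨⟨h1, h2⟩, h3⟩, h3.trans h1, h4⟩
      · rintro ⟨⟨⟨h1, h2⟩, h3⟩, _, h4⟩
        exact ⟨⟨h1, h2⟩, h3, h4⟩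
  refine h1.trans ?_
  have h2 : ∀ j ∈ range (m + 1), ∑ T ∈ Q.powersetCard j,
      (((Q.card - j).choose (m - j) : ℕ) : ℝ) * F T ≤
      C * (Q.card.choose m : ℝ) * ((m.choose j : ℕ) : ℝ) := by
    intro j hj
    have hjm : j ≤ m := by
      have := mem_range.1 hj
      omega
    rw [← mul_sum]
    have h3 : Q.card.choose m * m.choose j = Q.card.choose j * (Q.card - j).choose (m - j) :=
      Nat.choose_mul hjm
    have h4 : (Q.card.choose m : ℝ) * (m.choose j : ℝ) =
        (Q.card.choose j : ℝ) * ((Q.card - j).choose (m - j) : ℝ) := by exact_mod_cast h3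
    calc (((Q.card - j).choose (m - j) : ℕ) : ℝ) * ∑ T ∈ Q.powersetCard j, F T
        ≤ (((Q.card - j).choose (m - j) : ℕ) : ℝ) * (C * (Q.card.choose j : ℝ)) :=
          mul_le_mul_of_nonneg_left (h j hjm) (Nat.cast_nonneg _)
      _ = C * ((Q.card.choose j : ℝ) * ((Q.card - j).choose (m - j) : ℝ)) := by ring
      _ = _ := by
          rw [← h4]
          ring
  refine (sum_le_sum h2).trans (le_of_eq ?_)
  rw [← mul_sum]
  have h3 : ∑ j ∈ range (m + 1), ((m.choose j : ℕ) : ℝ) = 2 ^ m := by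
    exact_mod_cast Nat.sum_range_choose m
  rw [h3]
  ring

/-- **the moments of the count over the subsets of a random set of primes** -/
theorem avg_sets (k : ℕ) : ∃ (C : ℝ) (D : ℕ), 1 ≤ C ∧
    ∀ (κ : Fin 3 → ℤ) (m y : ℕ) (Q : Finset ℕ), (∀ q ∈ Q, q.Prime ∧ q ≠ 2 ∧ q ≤ y) →
      (y : ℝ) ^ (19 / 20 : ℝ) ≤ Q.card → C * ((m : ℝ) + 1) ^ D ≤ Q.card →
        ∑ P ∈ Q.powersetCard m, ∑ T ∈ P.powerset,
          (Pool.Agent.W262.RK.NL (∏ p ∈ T, p) (LT κ (∏ p ∈ T, p)) : ℝ) ^ k ≤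
            C * 2 ^ m * (Q.card.choose m : ℝ) := by
  classical
  obtain ⟨C, D, hC, h⟩ := avg_nl k
  refine ⟨2 * C, D + 2, by linarith, ?_⟩
  intro κ m y Q hQ hyQ hmQ
  have hm1 : (1 : ℝ) ≤ (m : ℝ) + 1 := by
    have : (0 : ℝ) ≤ m := Nat.cast_nonneg m
    linarith
  have hmD : (1 : ℝ) ≤ ((m : ℝ) + 1) ^ D := one_le_pow₀ hm1
  have h2m : (2 : ℝ) * ((m : ℝ) + 1) ^ 2 ≤ Q.card := by
    refine le_trans ?_ hmQ
    rw [pow_add]
    have h1 : 0 ≤ ((m : ℝ) + 1) ^ 2 := by positivity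
    have h2 : (1 : ℝ) ≤ C * ((m : ℝ) + 1) ^ D := by nlinarith
    nlinarith [mul_le_mul_of_nonneg_right h2 h1]
  have h2mN : 2 * (m + 1) ^ 2 ≤ Q.card := by exact_mod_cast h2m
  refine avgP Q m _ (fun T => by positivity) (2 * C) fun j hj => ?_
  have hjm : (j : ℝ) ≤ m := by exact_mod_cast hj
  have h3 := h κ j y Q hQ hyQ (by
    refine le_trans ?_ hmQ
    have h4 : ((j : ℝ) + 1) ^ D ≤ ((m : ℝ) + 1) ^ (D + 2) :=
      (pow_le_pow_left₀ (by positivity) (by linarith) D).trans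
        (pow_le_pow_right₀ hm1 (by omega))
    have h5 : 0 ≤ ((m : ℝ) + 1) ^ (D + 2) := by positivity
    nlinarith)
  have h4 := subsets_le Q j (fun T => (Pool.Agent.W262.RK.NL (∏ p ∈ T, p)
    (LT κ (∏ p ∈ T, p)) : ℝ) ^ k) (fun T => by positivity)
  have h5 : ∑ x ∈ (PQ (Fin j) Q).filter Function.Injective,
      (Pool.Agent.W262.RK.NL (∏ p ∈ univ.image x, p) (LT κ (∏ p ∈ univ.image x, p)) : ℝ) ^ k =
      ∑ x ∈ (PQ (Fin j) Q).filter Function.Injective,
      (Pool.Agent.W262.RK.NL (∏ i, x i) (LT κ (∏ i, x i)) : ℝ) ^ k := by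
    refine sum_congr rfl fun x hx => ?_
    have h6 : ∏ p ∈ univ.image x, p = ∏ i, x i :=
      prod_image (f := fun p : ℕ => p) ((mem_filter.1 hx).2.injOn)
    rw [h6]
  rw [h5] at h4
  have h6 := pow_le_choose Q.card j (by
    have : j ^ 2 ≤ (m + 1) ^ 2 := Nat.pow_le_pow_left (by omega) 2
    omega)
  have hfac : (0 : ℝ) < j.factorial := by exact_mod_cast j.factorial_pos
  have h7 : (j.factorial : ℝ) * ∑ T ∈ Q.powersetCard j,
      (Pool.Agent.W262.RK.NL (∏ p ∈ T, p) (LT κ (∏ p ∈ T, p)) : ℝ) ^ k ≤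
      (j.factorial : ℝ) * (2 * C * (Q.card.choose j : ℝ)) := by
    calc _ ≤ C * (Q.card : ℝ) ^ j := h4.trans h3
      _ ≤ C * (2 * ((j.factorial : ℝ) * (Q.card.choose j : ℝ))) :=
          mul_le_mul_of_nonneg_left h6 (by linarith)
      _ = _ := by ring
  exact le_of_mul_le_mul_left h7 hfac

end Pool.Agent.TH715.RS
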