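import Mathlib
import Pool.Agent.TH715.RS.Avg
import Pool.Agent.W307.SE.Stm
import Pool.Agent.W307.SE.Locp
import Pool.Agent.W407.SE.Ratp
import Pool.Agent.W410.FK.FINH
import Pool.Agent.W342.RK2.LocL

/-!
# The 2-Selmer group of a twist by a product of primes and the local count
-/

set_option autoImplicit false

namespace Pool.Agent.TH715.RS

open Finset

open Pool.Agent.W262.RK (NL LL LocH dv sgn sg0 XC)

open Pool.Agent.W307.SE (Sel)

/-- the local hypothesis -/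
lemma locH_tw {a : Fin 3 → ℤ} (h012 : a 0 - a 1 = a 2) {T : Finset ℕ}
    (hT : ∀ p ∈ T, p.Prime ∧ ¬ (p : ℤ) ∣ 2 * a 0 * a 1 * a 2) {p : ℕ} (hp : p ∈ T) :
    LocH 3 a (sg0 p (((∏ q ∈ T, q) / p : ℕ) : ℤ)) p (a 0 * ((∏ q ∈ T, q : ℕ) : ℤ))
      (a 1 * ((∏ q ∈ T, q : ℕ) : ℤ)) := by
  classical
  obtain ⟨hpp, hpa⟩ := hT p hp
  have hdec : (∏ q ∈ T, q) = p * ∏ q ∈ T.erase p, q := (mul_prod_erase T (fun q => q) hp).symm
  have hpn : ¬ p ∣ ∏ q ∈ T.erase p, q := by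
    intro h
    obtain ⟨q, hq, h1⟩ := (hpp.prime.dvd_finsetProd_iff _).1 h
    obtain ⟨h2, h3⟩ := mem_erase.1 hq
    exact h2 ((Nat.prime_dvd_prime_iff_eq hpp (hT q h3).1).1 h1).symm
  rw [hdec, Nat.mul_div_cancel_left _ hpp.pos]
  set n := ∏ q ∈ T.erase p, q with hn
  have hp0 : (p : ℤ) ≠ 0 := by exact_mod_cast hpp.ne_zero
  have hpn' : ¬ (p : ℤ) ∣ (n : ℤ) := fun h => hpn (Int.natCast_dvd_natCast.1 h)
  have hpk : ∀ k, ¬ (p : ℤ) ∣ a k := by
    intro k h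
    apply hpa
    fin_cases k
    · exact ((h.mul_left 2).mul_right _).mul_right _
    · exact (h.mul_left _).mul_right _
    · exact h.mul_left _
  have key : ∀ k, (p : ℤ) ∣ a k * ((p * n : ℕ) : ℤ) ∧ ¬ (p : ℤ) ^ 2 ∣ a k * ((p * n : ℕ) : ℤ) ∧
      jacobiSym (a k * (a k * ((p * n : ℕ) : ℤ) / p)) p =
        (if sg0 p (n : ℤ) = true then -1 else 1) := by
    intro k
    have h1 : a k * ((p * n : ℕ) : ℤ) = p * (a k * n) := by
      push_cast
      ring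
    rw [h1]
    refine ⟨Dvd.intro _ rfl, ?_, ?_⟩
    · intro h
      rw [sq] at h
      have h2 : (p : ℤ) ∣ a k * n := (mul_dvd_mul_iff_left hp0).1 h
      rcases (Nat.prime_iff_prime_int.1 hpp).dvd_or_dvd h2 with h3 | h3
      · exact hpk k h3
      · exact hpn' h3
    · rw [Int.mul_ediv_cancel_left _ hp0]
      have h2 : a k * (a k * (n : ℤ)) = (a k) ^ 2 * n := by ring
      have hg1 : (a k).gcd p = 1 := by
        rw [Int.gcd_comm, ← Int.isCoprime_iff_gcd_eq_one]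
        exact (Nat.prime_iff_prime_int.1 hpp).coprime_iff_not_dvd.2 (hpk k)
      have hg2 : ((n : ℤ)).gcd p = 1 := by
        rw [Int.gcd_comm, ← Int.isCoprime_iff_gcd_eq_one]
        exact (Nat.prime_iff_prime_int.1 hpp).coprime_iff_not_dvd.2 hpn'
      rw [h2, jacobiSym.mul_left, jacobiSym.sq_one' hg1, one_mul]
      unfold sg0
      rcases jacobiSym.eq_one_or_neg_one hg2 with h3 | h3
      · rw [h3, if_neg (by decide)]
      · rw [h3, if_pos (by decide)]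
  unfold LocH
  rw [if_neg (by decide), if_neg (by decide), if_neg (by decide)]
  obtain ⟨h1, h2, h3⟩ := key 0
  obtain ⟨h4, h5, h6⟩ := key 1
  obtain ⟨h7, h8, h9⟩ := key 2
  have h10 : a 0 * ((p * n : ℕ) : ℤ) - a 1 * ((p * n : ℕ) : ℤ) = a 2 * ((p * n : ℕ) : ℤ) := by
    rw [← sub_mul, h012]
  rw [h10]
  exact ⟨h1, h4, h2, h5, h8, h3, h6, h9⟩

/-- **the 2-Selmer group is bounded by the local count** -/
theorem sel_nl {a : Fin 3 → ℤ} (ha : ∀ k, a k ≠ 0) (h012 : a 0 - a 1 = a 2) {T : Finset ℕ}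
    (hT : ∀ p ∈ T, p.Prime ∧ ¬ (p : ℤ) ∣ 2 * a 0 * a 1 * a 2) :
    (Sel (a 0 * ((∏ q ∈ T, q : ℕ) : ℤ)) (a 1 * ((∏ q ∈ T, q : ℕ) : ℤ))).ncard ≤
      4 ^ ((2 * a 0 * a 1 * a 2).natAbs.primeFactors.card + 2) *
        NL (∏ q ∈ T, q) (LT a (∏ q ∈ T, q)) := by
  classical
  set m := ∏ q ∈ T, q with hm
  have hm0 : (m : ℤ) ≠ 0 := by
    have : m ≠ 0 := prod_ne_zero_iff.2 fun q hq => (hT q hq).1.ne_zero
    exact_mod_cast this
  have hA : 2 * a 0 * a 1 * a 2 ≠ 0 :=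
    mul_ne_zero (mul_ne_zero (mul_ne_zero (by norm_num) (ha 0)) (ha 1)) (ha 2)
  have hmem : ∀ p : ℕ, p.Prime → p ∣ m → p ∈ T := by
    intro p hp h
    obtain ⟨q, hq, h1⟩ := (hp.prime.dvd_finsetProd_iff _).1 h
    rw [(Nat.prime_dvd_prime_iff_eq hp (hT q hq).1).1 h1]
    exact hq
  have hne2 : ∀ p ∈ T, p ≠ 2 := by
    rintro p hp rfl
    apply (hT 2 hp).2
    exact (((dvd_refl (2 : ℤ)).mul_right _).mul_right _).mul_right _
  have hnk : ∀ p ∈ T, ∀ k, ¬ (p : ℤ) ∣ a k := by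
    intro p hp k h
    apply (hT p hp).2
    fin_cases k
    · exact ((h.mul_left 2).mul_right _).mul_right _
    · exact (h.mul_left _).mul_right _
    · exact h.mul_left _
  have hd := Pool.Agent.W410.FK.seld m (LT a m) (a 0 * (m : ℤ)) (a 1 * (m : ℤ))
    (mul_ne_zero (ha 0) hm0) (mul_ne_zero (ha 1) hm0)
    (fun h => ha 2 (by
      rw [← h012, sub_eq_zero]
      exact mul_right_cancel₀ hm0 h))
    (by
      rw [← Nat.not_even_iff_odd, even_iff_two_dvd]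
      intro h
      exact hne2 2 (hmem 2 Nat.prime_two h) rfl)
    (sqf_prod T fun p hp => (hT p hp).1)
    (fun p hp hpd => Pool.Agent.W342.RK2.xcl 3 a _ p hp (hne2 p (hmem p hp hpd))
      (hnk p (hmem p hp hpd)))
    (fun p hp hpd x x' hx' hcurve e1 e2 he1 he2 hsq1 hsq2 => by
      have hpp : p.Prime := Fact.out
      exact Pool.Agent.W307.SE.loclp_of Pool.Agent.W407.SE.ratp 3 a _ p _ _
        (hne2 p (hmem p hpp hpd)) (hnk p (hmem p hpp hpd))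
        (locH_tw h012 hT (hmem p hpp hpd)) x x' hx' hcurve e1 e2 he1 he2 hsq1 hsq2)
  refine hd.2.trans (Nat.mul_le_mul_right _ (Nat.pow_le_pow_right (by norm_num) ?_))
  refine Nat.add_le_add_right (card_le_card ?_) 2
  intro q hq
  obtain ⟨h1, h2⟩ := mem_filter.1 hq
  rw [Nat.mem_primeFactors] at h1 ⊢
  obtain ⟨h3, h4, _⟩ := h1
  refine ⟨h3, ?_, Int.natAbs_ne_zero.2 hA⟩
  have h5 : 2 * (a 0 * (m : ℤ)) * (a 1 * (m : ℤ)) * (a 0 * (m : ℤ) - a 1 * (m : ℤ)) =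
      (2 * a 0 * a 1 * a 2) * (m : ℤ) ^ 3 := by
    rw [← h012]
    ring
  rw [h5, Int.natAbs_mul, Int.natAbs_pow, Int.natAbs_natCast] at h4
  rcases (Nat.Prime.dvd_mul h3).1 h4 with h6 | h6
  · exact h6
  · exact absurd (h3.dvd_of_dvd_pow h6) h2

end Pool.Agent.TH715.RS
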